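import Pool.Agent.QD.KDefs

/-!
# QD-N3, basic facts: orders, closeness to one, local squares, the symbol `uK`, the group `HSub`
-/

namespace Pool.Agent.QD

open NumberField IsDedekindDomain Pool.Agent.HWR WithZero

variable {K : Type} [Field K] [NumberField K]

/-! ### The order -/

theorem val_unit_ne (v : HeightOneSpectrum (𝓞 K)) (x : Kˣ) : v.valuation K (x : K) ≠ 0 :=
  (Valuation.ne_zero_iff _).2 x.ne_zero

theorem val_eq_exp (v : HeightOneSpectrum (𝓞 K)) (x : Kˣ) :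
    v.valuation K (x : K) = exp (-ordK v x) := by
  unfold ordK
  rw [neg_neg, exp_log (val_unit_ne v x)]

theorem ordK_eq_iff (v : HeightOneSpectrum (𝓞 K)) (x : Kˣ) (n : ℤ) :
    ordK v x = n ↔ v.valuation K (x : K) = exp (-n) := by
  rw [val_eq_exp, exp_inj, neg_inj]

theorem ordK_one (v : HeightOneSpectrum (𝓞 K)) : ordK v (1 : Kˣ) = 0 := by
  simp [ordK]

theorem ordK_mul (v : HeightOneSpectrum (𝓞 K)) (x y : Kˣ) :
    ordK v (x * y) = ordK v x + ordK v y := by
  unfold ordK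
  rw [Units.val_mul, map_mul, log_mul (val_unit_ne v x) (val_unit_ne v y)]
  ring

/-- the order as a homomorphism -/
noncomputable def ordHom (v : HeightOneSpectrum (𝓞 K)) : Kˣ →* Multiplicative ℤ where
  toFun x := Multiplicative.ofAdd (ordK v x)
  map_one' := by rw [ordK_one]; rfl
  map_mul' x y := by rw [ordK_mul]; rfl

theorem ordK_inv (v : HeightOneSpectrum (𝓞 K)) (x : Kˣ) : ordK v x⁻¹ = -ordK v x := by
  have h := ordK_mul v x x⁻¹
  rw [mul_inv_cancel, ordK_one] at h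
  linarith

theorem ordK_div (v : HeightOneSpectrum (𝓞 K)) (x y : Kˣ) :
    ordK v (x / y) = ordK v x - ordK v y := by
  rw [div_eq_mul_inv, ordK_mul, ordK_inv]; ring

theorem ordK_pow (v : HeightOneSpectrum (𝓞 K)) (x : Kˣ) (n : ℕ) :
    ordK v (x ^ n) = n * ordK v x := by
  induction n with
  | zero => simp [ordK_one]
  | succ n ih => rw [pow_succ, ordK_mul, ih]; push_cast; ring

theorem ordK_zpow (v : HeightOneSpectrum (𝓞 K)) (x : Kˣ) (n : ℤ) :
    ordK v (x ^ n) = n * ordK v x := by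
  obtain ⟨m, rfl | rfl⟩ := n.eq_nat_or_neg
  · rw [zpow_natCast, ordK_pow]
  · rw [zpow_neg, ordK_inv, zpow_natCast, ordK_pow]; ring

theorem ordK_neg (v : HeightOneSpectrum (𝓞 K)) (x : Kˣ) : ordK v (-x) = ordK v x := by
  unfold ordK
  rw [Units.val_neg, Valuation.map_neg]

theorem ordK_neg_one (v : HeightOneSpectrum (𝓞 K)) : ordK v (-1 : Kˣ) = 0 := by
  rw [ordK_neg, ordK_one]

theorem ordK_prod (v : HeightOneSpectrum (𝓞 K)) {ι : Type*} (s : Finset ι) (f : ι → Kˣ) :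
    ordK v (∏ i ∈ s, f i) = ∑ i ∈ s, ordK v (f i) := by
  classical
  induction s using Finset.induction_on with
  | empty => simp [ordK_one]
  | insert a s ha ih => rw [Finset.prod_insert ha, Finset.sum_insert ha, ordK_mul, ih]

/-- integral elements -/
theorem ordK_nonneg_of_int (v : HeightOneSpectrum (𝓞 K)) (x : Kˣ) (a : 𝓞 K)
    (h : (x : K) = algebraMap (𝓞 K) K a) : 0 ≤ ordK v x := by
  have h1 : v.valuation K (x : K) ≤ 1 := by
    rw [h]; exact v.valuation_le_one a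
  rw [val_eq_exp, ← exp_zero, exp_le_exp] at h1
  linarith

theorem ordK_eq_zero_of_not_mem (v : HeightOneSpectrum (𝓞 K)) (x : Kˣ) (a : 𝓞 K)
    (h : (x : K) = algebraMap (𝓞 K) K a) (ha : a ∉ v.asIdeal) : ordK v x = 0 := by
  rw [ordK_eq_iff, h, (HeightOneSpectrum.valuation_eq_one_iff_notMem (K := K) v).2 ha]
  simp

/-- the order of an integral element, in terms of powers of the ideal -/
theorem le_ordK_iff_of_int (v : HeightOneSpectrum (𝓞 K)) (x : Kˣ) (a : 𝓞 K)
    (h : (x : K) = algebraMap (𝓞 K) K a) (n : ℕ) : (n : ℤ) ≤ ordK v x ↔ a ∈ v.asIdeal ^ n := by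
  have h0 : v.valuation K (x : K) = v.intValuation a := by
    rw [h]; exact v.valuation_of_algebraMap a
  rw [← v.intValuation_le_pow_iff_mem, ← h0, val_eq_exp, exp_le_exp, neg_le_neg_iff]

/-- for a nonzero integral element, the order is positive at finitely many places only -/
theorem finite_mem (a : 𝓞 K) (ha : a ≠ 0) :
    {v : HeightOneSpectrum (𝓞 K) | a ∈ v.asIdeal}.Finite := by
  have h := Ideal.finite_factors (I := Ideal.span {a})
    (by simpa [Ideal.zero_eq_bot, Ideal.span_singleton_eq_bot] using ha)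
  refine h.subset ?_
  intro v hv
  simpa [Ideal.dvd_span_singleton] using hv

theorem ordK_finite (x : Kˣ) : {v : HeightOneSpectrum (𝓞 K) | ordK v x ≠ 0}.Finite := by
  obtain ⟨⟨a, b⟩, hab⟩ := IsLocalization.surj (nonZeroDivisors (𝓞 K)) (x : K)
  have hb : (b : 𝓞 K) ≠ 0 := nonZeroDivisors.coe_ne_zero b
  have hb' : algebraMap (𝓞 K) K (b : 𝓞 K) ≠ 0 := by
    simp
  have ha' : algebraMap (𝓞 K) K a ≠ 0 := by
    rw [← hab]
    exact mul_ne_zero x.ne_zero hb'
  have ha : a ≠ 0 := by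
    rintro rfl
    simp at ha'
  refine ((finite_mem a ha).union (finite_mem (b : 𝓞 K) hb)).subset ?_
  intro v hv
  by_contra hcon
  rw [Set.mem_union, not_or] at hcon
  apply hv
  have h1 : x * Units.mk0 _ hb' = Units.mk0 _ ha' := by
    ext; simpa using hab
  have h2 := ordK_mul v x (Units.mk0 _ hb')
  have h3 := ordK_eq_zero_of_not_mem v (Units.mk0 _ ha') a rfl hcon.1
  have h4 := ordK_eq_zero_of_not_mem v (Units.mk0 _ hb') (b : 𝓞 K) rfl hcon.2
  rw [h1, h3, h4] at h2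
  linarith

/-- every element of `K^*` is a quotient of an integral element by a square of a nonzero
natural number -/
theorem exists_int_mul_sq (x : Kˣ) : ∃ (a : 𝓞 K) (y : Kˣ), a ≠ 0 ∧
    (x : K) * (y : K) ^ 2 = algebraMap (𝓞 K) K a ∧ ∃ b : 𝓞 K, (y : K) = algebraMap (𝓞 K) K b := by
  obtain ⟨⟨a, b⟩, hab⟩ := IsLocalization.surj (nonZeroDivisors (𝓞 K)) (x : K)
  have hb : (b : 𝓞 K) ≠ 0 := nonZeroDivisors.coe_ne_zero b
  have hb' : algebraMap (𝓞 K) K (b : 𝓞 K) ≠ 0 := by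
    simp
  have ha' : algebraMap (𝓞 K) K a ≠ 0 := by
    rw [← hab]
    exact mul_ne_zero x.ne_zero hb'
  have ha : a ≠ 0 := by
    rintro rfl
    simp at ha'
  refine ⟨a * b, Units.mk0 _ hb', mul_ne_zero ha hb, ?_, (b : 𝓞 K), rfl⟩
  rw [map_mul, ← hab]
  simp only [Units.val_mk0]
  ring

/-! ### Closeness to one -/

theorem closeOne_zero (v : HeightOneSpectrum (𝓞 K)) (x : K) (hx : v.valuation K x ≤ 1) :
    closeOne v 0 x := by
  unfold closeOne
  simp only [Nat.cast_zero, neg_zero, exp_zero]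
  exact (Valuation.map_sub_le (v.valuation K) hx (by simp))

theorem closeOne_one (v : HeightOneSpectrum (𝓞 K)) (k : ℕ) : closeOne v k (1 : K) := by
  simp [closeOne]

theorem closeOne_mono (v : HeightOneSpectrum (𝓞 K)) {j k : ℕ} (h : j ≤ k) {x : K}
    (hx : closeOne v k x) : closeOne v j x := by
  unfold closeOne at *
  refine hx.trans ?_
  rw [exp_le_exp]
  have : (j : ℤ) ≤ k := by exact_mod_cast h
  linarith

theorem closeOne_val_le (v : HeightOneSpectrum (𝓞 K)) {k : ℕ} {x : K} (hx : closeOne v k x) :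
    v.valuation K x ≤ 1 := by
  have h1 : v.valuation K (x - 1) ≤ 1 := by
    refine le_trans hx ?_
    rw [← exp_zero, exp_le_exp]
    have : (0 : ℤ) ≤ k := by positivity
    linarith
  have h2 := Valuation.map_add_le (v.valuation K) h1 (by simp : v.valuation K (1 : K) ≤ 1)
  simpa using h2

theorem closeOne_val_eq (v : HeightOneSpectrum (𝓞 K)) {k : ℕ} (hk : k ≠ 0) {x : K}
    (hx : closeOne v k x) : v.valuation K x = 1 := by
  have h1 : v.valuation K (x - 1) < 1 := by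
    refine lt_of_le_of_lt hx ?_
    rw [← exp_zero, exp_lt_exp]
    have : (0 : ℤ) < k := by exact_mod_cast Nat.pos_of_ne_zero hk
    linarith
  have h2 := Valuation.map_add_eq_of_lt_right (v.valuation K) (x := x - 1) (y := 1)
    (by rw [map_one]; exact h1)
  rwa [sub_add_cancel, map_one] at h2

theorem closeOne_mul (v : HeightOneSpectrum (𝓞 K)) {k : ℕ} {x y : K}
    (hx : closeOne v k x) (hy : closeOne v k y) : closeOne v k (x * y) := by
  have hy1 := closeOne_val_le v hy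
  have h : x * y - 1 = (x - 1) * y + (y - 1) := by ring
  unfold closeOne at *
  rw [h]
  refine Valuation.map_add_le _ ?_ hy
  rw [map_mul]
  calc v.valuation K (x - 1) * v.valuation K y ≤ exp (-(k : ℤ)) * 1 := mul_le_mul' hx hy1
    _ = _ := mul_one _

theorem closeOne_inv (v : HeightOneSpectrum (𝓞 K)) {k : ℕ} (hk : k ≠ 0) {x : K}
    (hx : closeOne v k x) : closeOne v k x⁻¹ := by
  have h1 := closeOne_val_eq v hk hx
  have hx0 : x ≠ 0 := by
    rintro rfl
    simp at h1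
  have h : x⁻¹ - 1 = -(x - 1) * x⁻¹ := by field_simp; ring
  unfold closeOne at *
  rw [h, map_mul, Valuation.map_neg, map_inv₀, h1, inv_one, mul_one]
  exact hx

theorem ordK_of_closeOne (v : HeightOneSpectrum (𝓞 K)) {k : ℕ} (hk : k ≠ 0) {x : Kˣ}
    (hx : closeOne v k (x : K)) : ordK v x = 0 := by
  rw [ordK_eq_iff, closeOne_val_eq v hk hx]
  simp

/-! ### Local squares -/

theorem LSq_one (v : HeightOneSpectrum (𝓞 K)) : LSq v (1 : Kˣ) :=
  fun k => ⟨1, by simpa using closeOne_one v k⟩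

theorem LSq_mul {v : HeightOneSpectrum (𝓞 K)} {x y : Kˣ} (hx : LSq v x) (hy : LSq v y) :
    LSq v (x * y) := by
  intro k
  obtain ⟨r, hr⟩ := hx k
  obtain ⟨s, hs⟩ := hy k
  refine ⟨r * s, ?_⟩
  have h := closeOne_mul v hr hs
  convert h using 1
  push_cast
  ring

theorem LSq_inv {v : HeightOneSpectrum (𝓞 K)} {x : Kˣ} (hx : LSq v x) : LSq v x⁻¹ := by
  intro k
  obtain ⟨r, hr⟩ := hx (k + 1)
  refine ⟨r⁻¹, ?_⟩
  have h := closeOne_mono v (Nat.le_succ k) (closeOne_inv v (Nat.succ_ne_zero k) hr)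
  convert h using 1
  push_cast
  rw [mul_inv, inv_pow]

theorem LSq_sq (v : HeightOneSpectrum (𝓞 K)) (x : Kˣ) : LSq v (x ^ 2) := by
  intro k
  refine ⟨x⁻¹, ?_⟩
  convert closeOne_one v k using 1
  push_cast
  field_simp

theorem LSq_div {v : HeightOneSpectrum (𝓞 K)} {x y : Kˣ} (hx : LSq v x) (hy : LSq v y) :
    LSq v (x / y) := by
  rw [div_eq_mul_inv]; exact LSq_mul hx (LSq_inv hy)

/-- the group of local squares at `v` -/
noncomputable def LSub (v : HeightOneSpectrum (𝓞 K)) : Subgroup Kˣ where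
  carrier := {x | LSq v x}
  mul_mem' := fun hx hy => LSq_mul hx hy
  one_mem' := LSq_one v
  inv_mem' := fun hx => LSq_inv hx

theorem mem_LSub {v : HeightOneSpectrum (𝓞 K)} {x : Kˣ} : x ∈ LSub v ↔ LSq v x := Iff.rfl

theorem LSq1_of_LSq {v : HeightOneSpectrum (𝓞 K)} {x : Kˣ} (hx : LSq v x) : LSq1 v x := hx 1

theorem LSq1_mul {v : HeightOneSpectrum (𝓞 K)} {x y : Kˣ} (hx : LSq1 v x) (hy : LSq1 v y) :
    LSq1 v (x * y) := by
  obtain ⟨r, hr⟩ := hx
  obtain ⟨s, hs⟩ := hy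
  refine ⟨r * s, ?_⟩
  have h := closeOne_mul v hr hs
  convert h using 1
  push_cast
  ring

theorem LSq1_inv {v : HeightOneSpectrum (𝓞 K)} {x : Kˣ} (hx : LSq1 v x) : LSq1 v x⁻¹ := by
  obtain ⟨r, hr⟩ := hx
  refine ⟨r⁻¹, ?_⟩
  have h := closeOne_inv v one_ne_zero hr
  convert h using 1
  push_cast
  rw [mul_inv, inv_pow]

theorem LSq1_sq (v : HeightOneSpectrum (𝓞 K)) (x : Kˣ) : LSq1 v (x ^ 2) :=
  LSq1_of_LSq (LSq_sq v x)

theorem LSq1_one (v : HeightOneSpectrum (𝓞 K)) : LSq1 v (1 : Kˣ) := LSq1_of_LSq (LSq_one v)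

theorem even_of_LSq1 {v : HeightOneSpectrum (𝓞 K)} {x : Kˣ} (hx : LSq1 v x) :
    Even (ordK v x) := by
  obtain ⟨r, hr⟩ := hx
  have h : ordK v (x * r ^ 2) = 0 := by
    apply ordK_of_closeOne v one_ne_zero
    simpa using hr
  rw [ordK_mul, ordK_pow] at h
  refine ⟨-ordK v r, ?_⟩
  push_cast at h
  linarith

theorem even_of_LSq {v : HeightOneSpectrum (𝓞 K)} {x : Kˣ} (hx : LSq v x) :
    Even (ordK v x) := even_of_LSq1 (LSq1_of_LSq hx)

/-! ### The symbol `uK` -/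

theorem uK_eq_one_iff {v : HeightOneSpectrum (𝓞 K)} {x : Kˣ} : uK v x = 1 ↔ LSq1 v x := by
  unfold uK
  constructor
  · intro h
    by_contra h2
    rw [if_neg h2] at h
    split_ifs at h
    all_goals omega
  · intro h
    have h1 := even_of_LSq1 h
    rw [if_neg (Int.not_odd_iff_even.2 h1), if_pos h]

theorem uK_eq_zero_iff {v : HeightOneSpectrum (𝓞 K)} {x : Kˣ} : uK v x = 0 ↔ Odd (ordK v x) := by
  unfold uK
  split_ifs with h1 h2 <;> simp_all

theorem uK_eq_neg_one_iff {v : HeightOneSpectrum (𝓞 K)} {x : Kˣ} :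
    uK v x = -1 ↔ Even (ordK v x) ∧ ¬ LSq1 v x := by
  unfold uK
  split_ifs with h1 h2
  · have := Int.not_even_iff_odd.2 h1
    simp [this]
  · simp [h2]
  · simp [h2, Int.not_odd_iff_even.1 h1]

theorem uK_cases (v : HeightOneSpectrum (𝓞 K)) (x : Kˣ) :
    uK v x = 0 ∨ uK v x = 1 ∨ uK v x = -1 := by
  unfold uK
  split_ifs <;> simp

theorem uK_of_even {v : HeightOneSpectrum (𝓞 K)} {x : Kˣ} (h : Even (ordK v x)) :
    uK v x = 1 ∨ uK v x = -1 := by
  unfold uK
  rw [if_neg (Int.not_odd_iff_even.2 h)]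
  split_ifs <;> simp

theorem uK_of_LSq {v : HeightOneSpectrum (𝓞 K)} {x : Kˣ} (hx : LSq v x) : uK v x = 1 :=
  uK_eq_one_iff.2 (LSq1_of_LSq hx)

theorem uK_one (v : HeightOneSpectrum (𝓞 K)) : uK v (1 : Kˣ) = 1 := uK_of_LSq (LSq_one v)

theorem uK_sq (v : HeightOneSpectrum (𝓞 K)) (x : Kˣ) : uK v (x ^ 2) = 1 := uK_of_LSq (LSq_sq v x)

theorem uK_mul_of_LSq1 {v : HeightOneSpectrum (𝓞 K)} {x y : Kˣ} (hy : LSq1 v y) :
    uK v (x * y) = uK v x := by
  have h1 : LSq1 v (x * y) ↔ LSq1 v x := by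
    constructor
    · intro h
      have := LSq1_mul h (LSq1_inv hy)
      rwa [mul_inv_cancel_right] at this
    · intro h
      exact LSq1_mul h hy
  have h2 : Odd (ordK v (x * y)) ↔ Odd (ordK v x) := by
    rw [ordK_mul, Int.odd_add]
    exact ⟨fun h => h.2 (even_of_LSq1 hy), fun h => ⟨fun _ => even_of_LSq1 hy, fun _ => h⟩⟩
  unfold uK
  by_cases h3 : Odd (ordK v x)
  · rw [if_pos h3, if_pos (h2.2 h3)]
  · rw [if_neg h3, if_neg (fun h => h3 (h2.1 h))]
    by_cases h4 : LSq1 v x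
    · rw [if_pos h4, if_pos (h1.2 h4)]
    · rw [if_neg h4, if_neg (fun h => h4 (h1.1 h))]

theorem uK_mul_sq (v : HeightOneSpectrum (𝓞 K)) (x y : Kˣ) : uK v (x * y ^ 2) = uK v x :=
  uK_mul_of_LSq1 (LSq1_sq v y)

/-! ### Symbols -/

theorem hs_of_LSq {v : HeightOneSpectrum (𝓞 K)} {x : Kˣ} (hx : LSq v x) (y : Kˣ) :
    hs v x y = 1 := by
  unfold hs
  apply uK_of_LSq
  obtain ⟨m, hm⟩ := even_of_LSq hx
  refine LSq_mul (LSq_mul ?_ ?_) (LSq_inv ?_)
  · have : ((-1 : Kˣ) ^ (ordK v x * ordK v y)) = ((-1 : Kˣ) ^ (m * ordK v y)) ^ 2 := by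
      rw [← zpow_natCast, ← zpow_mul, hm]
      congr 1
      push_cast
      ring
    rw [this]
    exact LSq_sq v _
  · exact (LSub v).zpow_mem hx _
  · have : y ^ (ordK v x) = (y ^ m) ^ 2 := by
      rw [← zpow_natCast, ← zpow_mul, hm]
      congr 1
      push_cast
      ring
    rw [this]
    exact LSq_sq v _

theorem hs_of_units {v : HeightOneSpectrum (𝓞 K)} {x y : Kˣ} (hx : ordK v x = 0)
    (hy : ordK v y = 0) : hs v x y = 1 := by
  unfold hs
  rw [hx, hy]
  simpa using uK_one v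

theorem hs_uniformizer {v : HeightOneSpectrum (𝓞 K)} {x y : Kˣ} (hx : ordK v x = 0)
    (hy : ordK v y = 1) : hs v x y = uK v x := by
  unfold hs
  rw [hx, hy]
  simp

/-! ### The subgroup `HSub` -/

/-- the subgroup of local squares -/
noncomputable def HSub (S : Finset (HeightOneSpectrum (𝓞 K))) : Subgroup Kˣ where
  carrier := HSet S
  mul_mem' := by
    rintro x y ⟨hx, hx'⟩ ⟨hy, hy'⟩
    refine ⟨fun v hv => LSq_mul (hx v hv) (hy v hv), fun φ => ?_⟩
    rw [Units.val_mul, map_mul]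
    exact mul_pos (hx' φ) (hy' φ)
  one_mem' := ⟨fun v _ => LSq_one v, fun φ => by simp⟩
  inv_mem' := by
    rintro x ⟨hx, hx'⟩
    refine ⟨fun v hv => LSq_inv (hx v hv), fun φ => ?_⟩
    rw [Units.val_inv_eq_inv_val, map_inv₀]
    exact inv_pos.2 (hx' φ)

theorem mem_HSub {S : Finset (HeightOneSpectrum (𝓞 K))} {x : Kˣ} :
    x ∈ HSub S ↔ (∀ v ∈ S, LSq v x) ∧ ∀ φ : K →+* ℝ, 0 < φ (x : K) := Iff.rfl

theorem sq_mem_HSub (S : Finset (HeightOneSpectrum (𝓞 K))) (x : Kˣ) : x ^ 2 ∈ HSub S := by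
  refine ⟨fun v _ => LSq_sq v x, fun φ => ?_⟩
  rw [Units.val_pow_eq_pow_val, map_pow]
  have : φ (x : K) ≠ 0 := by
    rw [Ne, map_eq_zero]
    exact x.ne_zero
  positivity

theorem HSub_mono {S S' : Finset (HeightOneSpectrum (𝓞 K))} (h : S ⊆ S') {x : Kˣ}
    (hx : x ∈ HSub S') : x ∈ HSub S :=
  ⟨fun v hv => hx.1 v (h hv), hx.2⟩

/-- the group of `S`-units -/
noncomputable def SU (S : Finset (HeightOneSpectrum (𝓞 K))) : Subgroup Kˣ where
  carrier := {x | ∀ v, v ∉ S → ordK v x = 0}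
  mul_mem' := by
    intro x y hx hy v hv
    rw [ordK_mul, hx v hv, hy v hv, add_zero]
  one_mem' := fun v _ => ordK_one v
  inv_mem' := by
    intro x hx v hv
    rw [ordK_inv, hx v hv, neg_zero]

theorem mem_SU {S : Finset (HeightOneSpectrum (𝓞 K))} {x : Kˣ} :
    x ∈ SU S ↔ ∀ v, v ∉ S → ordK v x = 0 := Iff.rfl

/-- the finite group `G_S` -/
abbrev GS (S : Finset (HeightOneSpectrum (𝓞 K))) : Type := Kˣ ⧸ HSub S

/-- `S` consists of the places over `T` or of these and one more place. -/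
structure Nic (T : Finset ℕ) (S : Finset (HeightOneSpectrum (𝓞 K))) : Prop where
  prime : ∀ p ∈ T, p.Prime
  two : 2 ∈ T
  ex : ∃ S' : Finset (HeightOneSpectrum (𝓞 K)), OverT T S' ∧ Good S' ∧ S' ⊆ S

/-- the element `2` of `K^*` -/
noncomputable def twoK (K : Type) [Field K] [NumberField K] : Kˣ := Units.mk0 2 two_ne_zero

theorem twoK_eq (K : Type) [Field K] [NumberField K] :
    ((twoK K : Kˣ) : K) = algebraMap (𝓞 K) K 2 := by
  rw [map_ofNat]
  rfl

/-- the order of `2` at `v` -/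
noncomputable def e2 (v : HeightOneSpectrum (𝓞 K)) : ℕ := (ordK v (twoK K)).toNat

theorem ordK_two (v : HeightOneSpectrum (𝓞 K)) : ordK v (twoK K) = e2 v := by
  unfold e2
  rw [Int.toNat_of_nonneg]
  exact ordK_nonneg_of_int v (twoK K) 2 (twoK_eq K)

theorem val_two (v : HeightOneSpectrum (𝓞 K)) :
    v.valuation K (2 : K) = exp (-(e2 v : ℤ)) := by
  rw [← ordK_two, ← val_eq_exp]
  rfl

theorem two_mem_pow (v : HeightOneSpectrum (𝓞 K)) : (2 : 𝓞 K) ∈ v.asIdeal ^ e2 v :=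
  (le_ordK_iff_of_int v (twoK K) 2 (twoK_eq K) (e2 v)).1 (ordK_two v).ge

theorem e2_eq_zero (v : HeightOneSpectrum (𝓞 K)) (h : (2 : 𝓞 K) ∉ v.asIdeal) : e2 v = 0 := by
  have h1 := ordK_eq_zero_of_not_mem v (twoK K) 2 (twoK_eq K) h
  rw [ordK_two] at h1
  exact_mod_cast h1

/-- the exponent in the counting of `G_S` -/
noncomputable def NS (S : Finset (HeightOneSpectrum (𝓞 K))) : ℕ :=
  S.card + InfinitePlace.nrRealPlaces K + InfinitePlace.nrComplexPlaces K

end Pool.Agent.QD
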