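import Pool.Agent.QD.N3.Basic
import Pool.Agent.HWR.ExtExists

/-!
# QD-N3-Hensel: elements close to one are local squares; the quadratic extension; approximation

PLAN.
`LSq_step`: if `closeOne v k y` and `k ≥ 2 e + 1`, `e = e2 v = ord_v 2`, then there is `r : Kˣ`
with `closeOne v (k+1) (y r^2)`.  Let `δ = y - 1`, `r = 1 - δ / 2`.  `v(δ / 2) ≤ exp (-(k - e))`,
`k - e ≥ 1`, so `r` is a unit at `v`, `r ≠ 0`.
`y r^2 - 1 = (1 + δ) (1 - δ/2)^2 - 1 = -(3/4) δ^2 + δ^3 / 4`, and `v(δ^2 / 4) ≤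
exp (-(2 k - 2 e)) ≤ exp (-(k+1))`; `v 3 ≤ 1`, `v δ ≤ 1`.
`LSq_of_close`: by induction from `k = 2 e + 1` on, for every `k` there is `r` with
`closeOne v k (x r^2)` (products of the `r`s); for `k ≤ 2 e + 1` use `closeOne_mono` and `r = 1`.

`LSq1` version away from 2: `e2 v = 0`, so `LSq1 v x` gives `closeOne v 1 (x r^2)`,
so `LSq v (x r^2)`, so `LSq v x` (`LSq_mul`, `LSq_inv`, `LSq_sq`).

`exists_ext_unit`: by `exists_int_mul_sq` there are `a : 𝓞 K`, `y : Kˣ` with `x y^2 = a`; `a` is no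
square in `K`, since `x` is none in `Kˣ`.  `HWR.exists_ext` gives `K'` and `θ` with `θ^2 = a`
(a statement in `𝓞 K'`, apply the coercion to `K'`).  Take `θ / y`.
-/

namespace Pool.Agent.QD

open NumberField IsDedekindDomain Pool.Agent.HWR WithZero

variable {K : Type} [Field K] [NumberField K]

private theorem LSq_step (v : HeightOneSpectrum (𝓞 K)) (k : ℕ) (hk : 2 * e2 v + 1 ≤ k) (y : Kˣ)
    (h : closeOne v k (y : K)) : ∃ r : Kˣ, closeOne v (k + 1) ((y : K) * (r : K) ^ 2) := by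
  set δ : K := (y : K) - 1 with hδ
  set e : ℕ := e2 v with he
  have hv2 : v.valuation K (2 : K) = exp (-(e : ℤ)) := val_two v
  have hδv : v.valuation K δ ≤ exp (-(k : ℤ)) := h
  have h2 : v.valuation K ((2 : K)⁻¹) = exp (e : ℤ) := by
    rw [map_inv₀, hv2, ← exp_neg, neg_neg]
  have hhalf : v.valuation K (δ / 2) ≤ exp (-((k : ℤ) - e)) := by
    rw [div_eq_mul_inv, map_mul, h2]
    calc v.valuation K δ * exp (e : ℤ) ≤ exp (-(k : ℤ)) * exp (e : ℤ) := mul_le_mul' hδv le_rfl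
      _ = _ := by rw [← exp_add]; congr 1; ring
  have hk' : (2 * (e : ℤ) + 1) ≤ k := by exact_mod_cast hk
  have hlt : v.valuation K (δ / 2) < 1 := by
    refine lt_of_le_of_lt hhalf ?_
    rw [← exp_zero, exp_lt_exp]
    linarith
  have hr0 : (1 : K) - δ / 2 ≠ 0 := by
    intro h0
    have h1 : δ / 2 = 1 := by linear_combination -h0
    rw [h1] at hlt
    simp at hlt
  refine ⟨Units.mk0 _ hr0, ?_⟩
  have hident : (y : K) * ((Units.mk0 _ hr0 : Kˣ) : K) ^ 2 - 1 =
      (δ / 2) ^ 2 * (-3 + δ) := by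
    have hy : (y : K) = 1 + δ := by rw [hδ]; ring
    rw [hy, Units.val_mk0]
    field_simp
    ring
  unfold closeOne
  rw [hident, map_mul, map_pow]
  have h3 : v.valuation K (-3 + δ) ≤ 1 := by
    refine Valuation.map_add_le _ ?_ ?_
    · rw [Valuation.map_neg]
      have h4 : v.valuation K (algebraMap (𝓞 K) K 3) ≤ 1 := v.valuation_le_one (K := K) (3 : 𝓞 K)
      rwa [map_ofNat] at h4
    · refine hδv.trans ?_
      rw [← exp_zero, exp_le_exp]
      have : (0 : ℤ) ≤ k := by positivity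
      linarith
  calc v.valuation K (δ / 2) ^ 2 * v.valuation K (-3 + δ)
      ≤ exp (-((k : ℤ) - e)) ^ 2 * 1 := mul_le_mul' (pow_le_pow_left' hhalf 2) h3
    _ = exp (-(2 * ((k : ℤ) - e))) := by
        rw [mul_one, pow_two, ← exp_add]; congr 1; ring
    _ ≤ exp (-((k + 1 : ℕ) : ℤ)) := by
        rw [exp_le_exp]
        push_cast
        linarith

theorem LSq_of_close (v : HeightOneSpectrum (𝓞 K)) (x : Kˣ)
    (h : closeOne v (2 * e2 v + 1) (x : K)) : LSq v x := by
  have key : ∀ j : ℕ, ∃ r : Kˣ, closeOne v (2 * e2 v + 1 + j) ((x : K) * (r : K) ^ 2) := by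
    intro j
    induction j with
    | zero => exact ⟨1, by simpa using h⟩
    | succ j ih =>
      obtain ⟨r, hr⟩ := ih
      obtain ⟨s, hs⟩ := LSq_step v (2 * e2 v + 1 + j) (Nat.le_add_right _ _) (x * r ^ 2)
        (by simpa using hr)
      refine ⟨r * s, ?_⟩
      have h5 : (x : K) * ((r * s : Kˣ) : K) ^ 2 = ((x * r ^ 2 : Kˣ) : K) * (s : K) ^ 2 := by
        push_cast
        ring
      rw [h5]
      exact hs
  intro k
  obtain ⟨r, hr⟩ := key k
  exact ⟨r, closeOne_mono v (Nat.le_add_left _ _) hr⟩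

/-- away from `2` the symbol `uK` detects local squares -/
theorem LSq_of_LSq1 (v : HeightOneSpectrum (𝓞 K)) (h2 : (2 : 𝓞 K) ∉ v.asIdeal) (x : Kˣ)
    (h : LSq1 v x) : LSq v x := by
  obtain ⟨r, hr⟩ := h
  have h1 : LSq v (x * r ^ 2) := by
    apply LSq_of_close
    rw [e2_eq_zero v h2]
    simpa using hr
  have h3 := LSq_mul h1 (LSq_inv (LSq_sq v r))
  rwa [mul_inv_cancel_right] at h3

/-- the field `K(√x)` -/
theorem exists_ext_unit (x : Kˣ) (hx : ¬ IsSquare x) :
    ∃ (K' : Type) (_ : Field K') (_ : NumberField K') (_ : Algebra K K') (θ : K'),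
      Module.finrank K K' = 2 ∧ θ ^ 2 = algebraMap K K' (x : K) := by
  obtain ⟨a, y, ha, hay, -⟩ := exists_int_mul_sq x
  have hns : ∀ z : K, z ^ 2 ≠ (a : K) := by
    intro z hz
    apply hx
    have hz0 : z ≠ 0 := by
      rintro rfl
      apply ha
      have : algebraMap (𝓞 K) K a = 0 := by
        rw [← show (0 : K) ^ 2 = 0 by ring]
        exact hz.symm
      simpa using this
    refine ⟨Units.mk0 z hz0 / y, ?_⟩
    ext
    have hy0 : (y : K) ≠ 0 := y.ne_zero
    have h1 : (x : K) * (y : K) ^ 2 = z ^ 2 := by rw [hay, hz]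
    push_cast
    simp only [Units.val_mk0]
    field_simp
    exact h1
  obtain ⟨K', i1, i2, i3, θ, hdeg, hθ⟩ := exists_ext K a hns
  refine ⟨K', i1, i2, i3, (θ : K') / algebraMap K K' (y : K), hdeg, ?_⟩
  have hy0 : algebraMap K K' (y : K) ≠ 0 := by
    rw [Ne, map_eq_zero]; exact y.ne_zero
  have h1 : (θ : K') ^ 2 = algebraMap K K' (algebraMap (𝓞 K) K a) := by
    have h2 := congrArg (fun t : 𝓞 K' => (t : K')) hθ
    simp only [map_pow] at h2
    rw [h2]
    rfl
  rw [div_pow, h1, ← hay, map_mul, map_pow]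
  field_simp

end Pool.Agent.QD
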