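import Pool.Agent.QD.N3.Hensel

/-!
# QD-N3-Weak: weak approximation

PLAN.  (1) Reduction to integral `x`, `y`: `exists_int_mul_sq` (`x a^2`, `y b^2` integral), squares
are in `HSub S` and `LSq` (`sq_mem_HSub`, `LSq_sq`).
(2) Targets `t w = x` for `w ∈ S`, `t v = y`; exponents `k w = (ordK w (t w)).toNat + 2 * e2 w + 1`.
Chinese remainder theorem (`IsDedekindDomain.exists_forall_sub_mem_ideal` for the finite set
`insert v S` of prime ideals `w.asIdeal`): `z₀ ∈ 𝓞 K` with `z₀ - t w ∈ w^(k w)` for all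
`w ∈ insert v S`.
(3) Let `M ≥ 1` be a natural number in all the `w^(k w)`: `M = ∏ w ∈ insert v S, absNorm (w^(k w))`
(`Ideal.absNorm_mem`), or `absNorm` of the product.
(4) `z = z₀ + M L x` with a natural number `L`, such that `φ(z₀)/φ(x) + M L > 0` for all the
finitely many `φ : K →+* ℝ` (the type `K →+* ℝ` is finite; `Finite` from embeddings to `ℂ`, or from
`NumberField.Embeddings`; choose `L` larger than the sum of all the `|φ(z₀)/φ(x)|`).  Then
`φ(z / x) > 0`; if there is no real embedding, make sure that `z ≠ 0`: it is, because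
`z - t w ∈ w^(k w)` while `t w ∉ w^(k w)` (apply it to `w = v`).
(5) For `w ∈ insert v S`: `z - t w ∈ w^(k w)`, so `w(z/(t w) - 1) ≤ exp (-(k w) + ord(t w)) ≤
exp (-(2 e2 w + 1))`, `closeOne w (2 e2 w + 1) (z / t w)`, so `LSq w (z / t w)` by `LSq_of_close`.
-/

namespace Pool.Agent.QD

open NumberField IsDedekindDomain Pool.Agent.HWR WithZero

variable {K : Type} [Field K] [NumberField K]

/-- integral approximation -/
private theorem weak_int (S : Finset (HeightOneSpectrum (𝓞 K))) (v : HeightOneSpectrum (𝓞 K))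
    (hv : v ∉ S) (k : HeightOneSpectrum (𝓞 K) → ℕ) (a b : 𝓞 K) (ha : a ≠ 0) :
    ∃ z : 𝓞 K, (∀ w ∈ S, z - a ∈ w.asIdeal ^ k w) ∧ z - b ∈ v.asIdeal ^ k v ∧
      ∀ φ : K →+* ℝ, 0 < φ (algebraMap (𝓞 K) K z) / φ (algebraMap (𝓞 K) K a) := by
  classical
  obtain ⟨z₀, hz₀⟩ := IsDedekindDomain.exists_forall_sub_mem_ideal (s := insert v S)
    (fun w : HeightOneSpectrum (𝓞 K) => w.asIdeal) k (fun w _ => w.prime)
    (fun w _ w' _ h h' => h (HeightOneSpectrum.ext h'))
    (fun w => if w.1 = v then b else a)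
  set M : ℕ := ∏ w ∈ insert v S, Ideal.absNorm (w.asIdeal ^ k w) with hM
  have hMpos : 0 < M := Finset.prod_pos fun w _ => Nat.pos_of_ne_zero (by
    rw [Ne, Ideal.absNorm_eq_zero_iff]; exact pow_ne_zero _ w.ne_bot)
  have hMmem : ∀ w ∈ insert v S, (M : 𝓞 K) ∈ w.asIdeal ^ k w := by
    intro w hw
    rw [hM, ← Finset.mul_prod_erase _ _ hw, Nat.cast_mul]
    exact Ideal.mul_mem_right _ _ (Ideal.absNorm_mem _)
  have ha' : algebraMap (𝓞 K) K a ≠ 0 := by
    intro h
    exact ha ((FaithfulSMul.algebraMap_injective (𝓞 K) K) (by rw [h, map_zero]))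
  obtain ⟨L, hL⟩ := exists_nat_gt
    (∑ φ : K →+* ℝ, |φ (algebraMap (𝓞 K) K z₀) / φ (algebraMap (𝓞 K) K a)|)
  refine ⟨z₀ + (M : 𝓞 K) * ((L : 𝓞 K) * a), ?_, ?_, ?_⟩
  · intro w hw
    have hwv : w ≠ v := by rintro rfl; exact hv hw
    have h1 := hz₀ w (Finset.mem_insert_of_mem hw)
    simp only [if_neg hwv] at h1
    have h2 := Ideal.mul_mem_right ((L : 𝓞 K) * a) _ (hMmem w (Finset.mem_insert_of_mem hw))
    have h3 := Ideal.add_mem _ h1 h2
    convert h3 using 1
    ring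
  · have h1 := hz₀ v (Finset.mem_insert_self v S)
    simp only [if_true] at h1
    have h2 := Ideal.mul_mem_right ((L : 𝓞 K) * a) _ (hMmem v (Finset.mem_insert_self v S))
    have h3 := Ideal.add_mem _ h1 h2
    convert h3 using 1
    ring
  · intro φ
    have hφ : φ (algebraMap (𝓞 K) K a) ≠ 0 := by
      rw [Ne, map_eq_zero]; exact ha'
    have h1 : φ (algebraMap (𝓞 K) K (z₀ + (M : 𝓞 K) * ((L : 𝓞 K) * a))) /
        φ (algebraMap (𝓞 K) K a) =
        φ (algebraMap (𝓞 K) K z₀) / φ (algebraMap (𝓞 K) K a) + (M : ℝ) * L := by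
      rw [map_add, map_mul, map_mul, map_add, map_mul, map_mul, map_natCast, map_natCast,
        map_natCast, map_natCast]
      field_simp
    rw [h1]
    have h2 : |φ (algebraMap (𝓞 K) K z₀) / φ (algebraMap (𝓞 K) K a)| < L := by
      refine lt_of_le_of_lt ?_ hL
      exact Finset.single_le_sum
        (f := fun φ : K →+* ℝ => |φ (algebraMap (𝓞 K) K z₀) / φ (algebraMap (𝓞 K) K a)|)
        (fun _ _ => abs_nonneg _) (Finset.mem_univ φ)
    have h3 : (L : ℝ) ≤ M * L := by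
      have : (1 : ℝ) ≤ M := by exact_mod_cast hMpos
      nlinarith [(Nat.cast_nonneg L : (0 : ℝ) ≤ L)]
    have h4 := neg_abs_le (φ (algebraMap (𝓞 K) K z₀) / φ (algebraMap (𝓞 K) K a))
    linarith

private theorem close_of_mem (w : HeightOneSpectrum (𝓞 K)) (X Z : Kˣ) (a z : 𝓞 K)
    (hX : (X : K) = algebraMap (𝓞 K) K a) (hZ : (Z : K) = algebraMap (𝓞 K) K z) (n m : ℕ)
    (h : z - a ∈ w.asIdeal ^ m) (hm : ordK w X + n ≤ m) :
    closeOne w n ((Z / X : Kˣ) : K) := by
  unfold closeOne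
  have h1 : ((Z / X : Kˣ) : K) - 1 = (algebraMap (𝓞 K) K (z - a)) * (X : K)⁻¹ := by
    have hx : (X : K) ≠ 0 := X.ne_zero
    rw [map_sub, ← hX, ← hZ]
    push_cast
    field_simp
  have h2 : w.valuation K (algebraMap (𝓞 K) K (z - a)) ≤ exp (-(m : ℤ)) := by
    rw [w.valuation_of_algebraMap]
    exact (w.intValuation_le_pow_iff_mem _ _).2 h
  rw [h1, map_mul, map_inv₀, val_eq_exp w X]
  calc w.valuation K (algebraMap (𝓞 K) K (z - a)) * (exp (-ordK w X))⁻¹
      ≤ exp (-(m : ℤ)) * (exp (-ordK w X))⁻¹ := mul_le_mul' h2 le_rfl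
    _ = exp (-(m : ℤ) + ordK w X) := by rw [← exp_neg, neg_neg, ← exp_add]
    _ ≤ exp (-(n : ℤ)) := by
        rw [exp_le_exp]
        linarith

/-- weak approximation: classes modulo `S` and a place outside `S` are independent -/
theorem weak_approx (S : Finset (HeightOneSpectrum (𝓞 K))) (v : HeightOneSpectrum (𝓞 K))
    (hv : v ∉ S) (x y : Kˣ) : ∃ z : Kˣ, z / x ∈ HSub S ∧ LSq v (z / y) := by
  obtain ⟨a, p, ha, hap, -⟩ := exists_int_mul_sq x
  obtain ⟨b, q, hb, hbq, -⟩ := exists_int_mul_sq y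
  set X : Kˣ := x * p ^ 2 with hX
  set Y : Kˣ := y * q ^ 2 with hY
  have hXa : (X : K) = algebraMap (𝓞 K) K a := by rw [hX, ← hap]; push_cast; ring
  have hYb : (Y : K) = algebraMap (𝓞 K) K b := by rw [hY, ← hbq]; push_cast; ring
  have hX0 : ∀ w, 0 ≤ ordK w X := fun w => ordK_nonneg_of_int w X a hXa
  have hY0 : ∀ w, 0 ≤ ordK w Y := fun w => ordK_nonneg_of_int w Y b hYb
  obtain ⟨z, hz1, hz2, hz3⟩ := weak_int S v hv
    (fun w => (ordK w X).toNat + (ordK w Y).toNat + (2 * e2 w + 1)) a b ha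
  have hzne : z ≠ 0 := by
    rintro rfl
    have h1 : b ∈ v.asIdeal ^ ((ordK v X).toNat + (ordK v Y).toNat + (2 * e2 v + 1)) := by
      have := neg_mem hz2
      simpa using this
    have h2 := (le_ordK_iff_of_int v Y b hYb _).2 h1
    push_cast at h2
    rw [Int.toNat_of_nonneg (hX0 v), Int.toNat_of_nonneg (hY0 v)] at h2
    have := hX0 v
    have h4 : (0 : ℤ) ≤ e2 v := by positivity
    linarith
  have hz0 : algebraMap (𝓞 K) K z ≠ 0 := by
    intro h
    exact hzne ((FaithfulSMul.algebraMap_injective (𝓞 K) K) (by rw [h, map_zero]))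
  set Z : Kˣ := Units.mk0 _ hz0 with hZ
  have hZz : (Z : K) = algebraMap (𝓞 K) K z := rfl
  refine ⟨Z, ?_, ?_⟩
  · have h1 : Z / x = Z / X * p ^ 2 := by
      rw [hX, div_mul_eq_mul_div, mul_div_mul_right_eq_div]
    rw [h1]
    refine (HSub S).mul_mem ?_ (sq_mem_HSub S p)
    refine ⟨fun w hw => ?_, fun φ => ?_⟩
    · apply LSq_of_close
      refine close_of_mem w X Z a z hXa hZz _ _ (hz1 w hw) ?_
      push_cast
      rw [Int.toNat_of_nonneg (hX0 w), Int.toNat_of_nonneg (hY0 w)]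
      have := hY0 w
      linarith
    · have h2 := hz3 φ
      rw [Units.val_div_eq_div_val, map_div₀, hXa, hZz]
      exact h2
  · have h1 : Z / y = Z / Y * q ^ 2 := by
      rw [hY, div_mul_eq_mul_div, mul_div_mul_right_eq_div]
    rw [h1]
    refine LSq_mul ?_ (LSq_sq v q)
    apply LSq_of_close
    refine close_of_mem v Y Z b z hYb hZz _ _ hz2 ?_
    push_cast
    rw [Int.toNat_of_nonneg (hX0 v), Int.toNat_of_nonneg (hY0 v)]
    have := hX0 v
    linarith

end Pool.Agent.QD
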