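import Pool.Agent.QD.N2Main
import Pool.Agent.QD.N3.Basic

/-!
# QD-N3-BSAlg: algebra of the global symbol

PLAN.  `Nic T S` gives `S' ⊆ S`, `OverT T S'`, `Good S'`; so a place over `2` is in `S`
(`nic_two`), and `hs_mul_left`, `hs_comm`, `hs_sq`, `hs_finite` of `N2Main` apply outside `S`.
`hsfin`: `{v : {v // v ∉ S} | hs v.1 x y ≠ 1}` is finite (preimage of a finite set under the
injective `Subtype.val`); it is the `mulSupport`.
`BS_mul_left`: `finprod_mul_distrib`.  `BS_comm`: `finprod_congr`.  `BS_sq`: `finprod_induction` with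
the predicate `z = 1 ∨ z = -1` (`finprod_induction p hp0 hp1 hp2`).
`BS_insert`: `finprod` over a subtype as `finprod_mem` (`finprod_subtype_eq_finprod_cond`,
`finprod_mem_insert'`), or: both sides as products over finite sets
(`finprod_eq_prod_of_mulSupport_subset`).
`BS_eq_of_subset`: if `S' ⊆ S` and `hs v x y = 1` for `v ∈ S`, `v ∉ S'`, then
`BS S' x y = BS S x y` (induction over `S \ S'` with `BS_insert'`, or directly via
`finprod_mem`-congruence: `finprod_mem_inter_mulSupport_eq'`).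
`BS_recip`: `x ∈ HSub S ⊆ HSub S'`, so `BS S' x y = 1` (`reciprocity`); for `v ∈ S` the element `x` is a
local square, so `hs v x y = 1` (`hs_of_LSq`); `BS_eq_of_subset`.
`BS_unit_unit`: all symbols are `1` (`hs_of_units`).
`BS_unit_pi`: `hs w x y = 1` for `w ≠ v`, `= uK v x` for `w = v` (`hs_uniformizer`);
`finprod_eq_single`.
`nic_pi`: `Good S'`: if `v ∉ S` then `v ∉ S'`.
-/

namespace Pool.Agent.QD

open NumberField IsDedekindDomain Pool.Agent.HWR

variable {K : Type} [Field K] [NumberField K]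

theorem nic_two {T : Finset ℕ} {S : Finset (HeightOneSpectrum (𝓞 K))} (hS : Nic T S)
    (v : HeightOneSpectrum (𝓞 K)) (hv : v ∉ S) : (2 : 𝓞 K) ∉ v.asIdeal := by
  obtain ⟨S', _, hG, hsub⟩ := hS.ex
  exact fun h => hv (hsub (hG.1 v h))

theorem nic_pi {T : Finset ℕ} {S : Finset (HeightOneSpectrum (𝓞 K))} (hS : Nic T S)
    (v : HeightOneSpectrum (𝓞 K)) (hv : v ∉ S) : ∃ y : Kˣ, ordK v y = 1 ∧
      ∀ v', v' ∉ S → v' ≠ v → ordK v' y = 0 := by
  obtain ⟨S', _, hG, hsub⟩ := hS.ex
  obtain ⟨y, h1, h2⟩ := hG.2 v (fun h => hv (hsub h))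
  exact ⟨y, h1, fun v' hv' hne => h2 v' (fun h => hv' (hsub h)) hne⟩

theorem nic_insert {T : Finset ℕ} {S : Finset (HeightOneSpectrum (𝓞 K))} (hS : Nic T S)
    (v : HeightOneSpectrum (𝓞 K)) [DecidableEq (HeightOneSpectrum (𝓞 K))] :
    Nic T (insert v S) := by
  obtain ⟨S', hO, hG, hsub⟩ := hS.ex
  exact ⟨hS.prime, hS.two, S', hO, hG, hsub.trans (Finset.subset_insert v S)⟩

private theorem bs_fin (S : Finset (HeightOneSpectrum (𝓞 K))) (x y : Kˣ) :
    (Function.mulSupport fun v : {v : HeightOneSpectrum (𝓞 K) // v ∉ S} =>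
      hs v.1 x y).Finite :=
  (hs_finite x y).preimage (Subtype.val_injective.injOn)

theorem BS_mul_left {T : Finset ℕ} {S : Finset (HeightOneSpectrum (𝓞 K))} (hS : Nic T S)
    (x y z : Kˣ) : BS S (x * y) z = BS S x z * BS S y z := by
  unfold BS
  rw [← finprod_mul_distrib (bs_fin S x z) (bs_fin S y z)]
  exact finprod_congr fun v => hs_mul_left v.1 (nic_two hS v.1 v.2) x y z

theorem BS_comm {T : Finset ℕ} {S : Finset (HeightOneSpectrum (𝓞 K))} (hS : Nic T S)
    (x y : Kˣ) : BS S x y = BS S y x := by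
  unfold BS
  exact finprod_congr fun v => hs_comm v.1 (nic_two hS v.1 v.2) x y

theorem BS_sq {T : Finset ℕ} {S : Finset (HeightOneSpectrum (𝓞 K))} (hS : Nic T S)
    (x y : Kˣ) : BS S x y = 1 ∨ BS S x y = -1 := by
  unfold BS
  refine finprod_induction (fun z : ℤ => z = 1 ∨ z = -1) (Or.inl rfl) ?_ ?_
  · rintro a b (ha | ha) (hb | hb) <;> subst ha hb <;> simp
  · intro v
    exact hs_sq v.1 (nic_two hS v.1 v.2) x y

open Classical in
private theorem bs_eq (S : Finset (HeightOneSpectrum (𝓞 K))) (x y : Kˣ) :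
    BS S x y = ∏ᶠ v : HeightOneSpectrum (𝓞 K), if v ∈ S then 1 else hs v x y := by
  unfold BS
  rw [finprod_subtype_eq_finprod_cond (f := fun v => hs v x y)]
  refine finprod_congr fun v => ?_
  rw [finprod_eq_if]
  by_cases h : v ∈ S
  · rw [if_neg (not_not.2 h), if_pos h]
  · rw [if_pos h, if_neg h]

open Classical in
private theorem bs_fin' (S : Finset (HeightOneSpectrum (𝓞 K))) (x y : Kˣ) :
    (Function.mulSupport fun v : HeightOneSpectrum (𝓞 K) =>
      if v ∈ S then (1 : ℤ) else hs v x y).Finite := by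
  refine (hs_finite x y).subset fun v hv => ?_
  rw [Function.mem_mulSupport] at hv
  change hs v x y ≠ 1
  by_cases h : v ∈ S
  · rw [if_pos h] at hv
    exact absurd rfl hv
  · rw [if_neg h] at hv
    exact hv

/-- locality -/
theorem BS_insert {T : Finset ℕ} {S : Finset (HeightOneSpectrum (𝓞 K))} (hS : Nic T S)
    (v : HeightOneSpectrum (𝓞 K)) (hv : v ∉ S) (x y : Kˣ) [DecidableEq (HeightOneSpectrum (𝓞 K))] :
    BS S x y = BS (insert v S) x y * hs v x y := by
  classical
  have h1 : ∏ᶠ w : HeightOneSpectrum (𝓞 K), (if w = v then hs v x y else 1) = hs v x y := by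
    rw [finprod_eq_single _ v]
    · rw [if_pos rfl]
    · intro w hw
      rw [if_neg hw]
  have h2 : (Function.mulSupport fun w : HeightOneSpectrum (𝓞 K) =>
      (if w = v then hs v x y else 1 : ℤ)).Finite := by
    refine (Set.finite_singleton v).subset fun w hw => ?_
    rw [Function.mem_mulSupport] at hw
    by_contra h
    exact hw (if_neg h)
  rw [bs_eq S, bs_eq (insert v S)]
  conv_rhs => rw [← h1]
  rw [← finprod_mul_distrib (bs_fin' (insert v S) x y) h2]
  refine finprod_congr fun w => ?_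
  by_cases hw : w = v
  · subst hw
    rw [if_neg hv, if_pos (Finset.mem_insert_self _ _), if_pos rfl, one_mul]
  · rw [if_neg hw, mul_one]
    by_cases hwS : w ∈ S
    · rw [if_pos hwS, if_pos (Finset.mem_insert_of_mem hwS)]
    · rw [if_neg hwS, if_neg (fun h => (Finset.mem_insert.1 h).elim hw hwS)]

private theorem bs_subset {S S' : Finset (HeightOneSpectrum (𝓞 K))} (hsub : S' ⊆ S) (x y : Kˣ)
    (h : ∀ v ∈ S, hs v x y = 1) : BS S x y = BS S' x y := by
  classical
  rw [bs_eq S, bs_eq S']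
  refine finprod_congr fun v => ?_
  by_cases h1 : v ∈ S
  · rw [if_pos h1]
    by_cases h2 : v ∈ S'
    · rw [if_pos h2]
    · rw [if_neg h2, h v h1]
  · rw [if_neg h1, if_neg (fun h2 => h1 (hsub h2))]

theorem BS_recip {T : Finset ℕ} {S : Finset (HeightOneSpectrum (𝓞 K))} (hS : Nic T S)
    (x y : Kˣ) (hx : x ∈ HSub S) : BS S x y = 1 := by
  obtain ⟨S', hO, hG, hsub⟩ := hS.ex
  rw [bs_subset hsub x y (fun v hv => hs_of_LSq (hx.1 v hv) y)]
  exact reciprocity T hS.prime hS.two S' hO hG x y (HSub_mono hsub hx)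

theorem BS_unit_unit (S : Finset (HeightOneSpectrum (𝓞 K)))
    (x y : Kˣ) (hx : x ∈ SU S) (hy : y ∈ SU S) : BS S x y = 1 := by
  unfold BS
  exact finprod_eq_one_of_forall_eq_one fun v => hs_of_units (hx v.1 v.2) (hy v.1 v.2)

theorem BS_unit_pi (S : Finset (HeightOneSpectrum (𝓞 K)))
    (v : HeightOneSpectrum (𝓞 K)) (hv : v ∉ S) (x y : Kˣ) (hx : x ∈ SU S)
    (hy : ordK v y = 1) (hy' : ∀ v', v' ∉ S → v' ≠ v → ordK v' y = 0) :
    BS S x y = uK v x := by
  unfold BS
  rw [finprod_eq_single _ (⟨v, hv⟩ : {v : HeightOneSpectrum (𝓞 K) // v ∉ S})]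
  · exact hs_uniformizer (hx v hv) hy
  · rintro ⟨w, hw⟩ hne
    exact hs_of_units (hx w hw) (hy' w hw (fun h => hne (Subtype.ext h)))

end Pool.Agent.QD
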