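import Pool.Agent.QD.N3.Basic

/-!
# QD-N3-Places: number of real embeddings, product of the norms over `2`

PLAN.
`nre_eq`: real embeddings correspond to the real places: `NumberField.InfinitePlace`,
`card_real_embeddings : card {φ : K →+* ℂ // ComplexEmbedding.IsReal φ} = nrRealPlaces K`, and
`K →+* ℝ` is in bijection with `{φ : K →+* ℂ // IsReal φ}` (compose with `Complex.ofRealHom`;
inverse `ComplexEmbedding.IsReal.embedding`).
`prod_nrm_le`: `∏ v ∈ S, v^(e2 v)` divides `(2)` (`Finset.prod_dvd_of_coprime` or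
`Ideal.prod_le_inf`-like: `two_mem_pow`, pairwise coprime powers of different maximal ideals;
`Ideal.dvd_iff_le`), so `absNorm` divides and is at most
`absNorm (span {2}) = 2^n` (`Ideal.absNorm_span_singleton`, `Algebra.norm`-facts,
`n = finrank ℚ K = finrank ℤ (𝓞 K)`, `RingOfIntegers.rank`).
`NS_bound`: `n = r1 + 2 r2` (`InfinitePlace.card_add_two_mul_card_eq_rank`), so
`4^#S * 2^n * 2^r1 = 4^(#S + r1 + r2)`.
-/

namespace Pool.Agent.QD

open NumberField IsDedekindDomain Pool.Agent.HWR WithZero

variable {K : Type} [Field K] [NumberField K]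

/-- real embeddings are the complex embeddings with real values -/
private noncomputable def realEmbEquiv (K : Type) [Field K] [NumberField K] :
    (K →+* ℝ) ≃ {φ : K →+* ℂ // ComplexEmbedding.IsReal φ} where
  toFun φ := ⟨Complex.ofRealHom.comp φ, by
    rw [ComplexEmbedding.isReal_iff]
    ext x
    simp [ComplexEmbedding.conjugate_coe_eq]⟩
  invFun φ := φ.2.embedding
  left_inv φ := by
    ext x
    apply Complex.ofReal_injective
    rw [ComplexEmbedding.IsReal.coe_embedding_apply]
    rfl
  right_inv φ := by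
    apply Subtype.ext
    ext x
    change ((φ.2.embedding x : ℝ) : ℂ) = φ.1 x
    rw [ComplexEmbedding.IsReal.coe_embedding_apply]

instance real_emb_finite (K : Type) [Field K] [NumberField K] : Finite (K →+* ℝ) :=
  Finite.of_equiv _ (realEmbEquiv K).symm

theorem nre_eq (K : Type) [Field K] [NumberField K] :
    Nat.card (K →+* ℝ) = InfinitePlace.nrRealPlaces K := by
  classical
  rw [Nat.card_congr (realEmbEquiv K), Nat.card_eq_fintype_card]
  exact InfinitePlace.card_real_embeddings K

private theorem prod_dvd (S : Finset (HeightOneSpectrum (𝓞 K))) :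
    ∏ v ∈ S, v.asIdeal ^ e2 v ∣ Ideal.span {(2 : 𝓞 K)} := by
  classical
  apply Finset.prod_dvd_of_coprime
  · intro v _ w _ hvw
    simp only [Function.onFun]
    apply IsCoprime.pow
    rw [Ideal.isCoprime_iff_sup_eq]
    refine Ideal.IsMaximal.coprime_of_ne v.isMaximal w.isMaximal ?_
    intro h
    exact hvw (HeightOneSpectrum.ext h)
  · intro v _
    rw [Ideal.dvd_span_singleton]
    exact two_mem_pow v

theorem prod_nrm_le (S : Finset (HeightOneSpectrum (𝓞 K))) :
    ∏ v ∈ S, nrm v ^ e2 v ≤ 2 ^ Module.finrank ℚ K := by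
  have h1 : ∏ v ∈ S, nrm v ^ e2 v = Ideal.absNorm (∏ v ∈ S, v.asIdeal ^ e2 v) := by
    rw [map_prod]
    refine Finset.prod_congr rfl fun v _ => ?_
    rw [map_pow]
    rfl
  have h2 : Ideal.absNorm (Ideal.span {(2 : 𝓞 K)}) = 2 ^ Module.finrank ℚ K := by
    rw [Ideal.absNorm_span_singleton]
    have h3 : (2 : 𝓞 K) = algebraMap ℤ (𝓞 K) 2 := by simp
    rw [h3, Algebra.norm_algebraMap, RingOfIntegers.rank]
    simp [Int.natAbs_pow]
  rw [h1, ← h2]
  apply Nat.le_of_dvd
  · rw [h2]; positivity
  · exact map_dvd _ (prod_dvd S)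

theorem NS_bound (S : Finset (HeightOneSpectrum (𝓞 K))) :
    (∏ v ∈ S, 4 * nrm v ^ e2 v) * 2 ^ Nat.card (K →+* ℝ) ≤ 4 ^ NS S := by
  have h1 := prod_nrm_le S
  have h2 := InfinitePlace.card_add_two_mul_card_eq_rank K
  rw [Finset.prod_mul_distrib, Finset.prod_const, nre_eq]
  unfold NS
  calc 4 ^ S.card * (∏ v ∈ S, nrm v ^ e2 v) * 2 ^ InfinitePlace.nrRealPlaces K
      ≤ 4 ^ S.card * 2 ^ Module.finrank ℚ K * 2 ^ InfinitePlace.nrRealPlaces K := by
        gcongr
    _ = 4 ^ (S.card + InfinitePlace.nrRealPlaces K + InfinitePlace.nrComplexPlaces K) := by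
        rw [← h2, pow_add, pow_add, pow_add, pow_mul]
        have h4 : (4 : ℕ) ^ InfinitePlace.nrRealPlaces K =
            2 ^ InfinitePlace.nrRealPlaces K * 2 ^ InfinitePlace.nrRealPlaces K := by
          rw [← mul_pow]
          rfl
        rw [h4]
        norm_num
        ring

end Pool.Agent.QD
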