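import Pool.Agent.QD.N3.LocA
import Pool.Agent.QD.N3.Places

/-!
# QD-N3-GSCard: the group `G_S` is finite, of order at most `4^(#S + r1 + r2)`

PLAN.
Homomorphism `Φ : Kˣ →* ((v : S) → Kˣ ⧸ LSub v) × ((K →+* ℝ) → ℤˣ)`; first component
`QuotientGroup.mk`, second component the sign of `φ x` (any group with two elements will do, e.g.
`Multiplicative (ZMod 2)`, or `ℝˣ ⧸ (positive subgroup)`; helper: the map `ℝˣ →* ℤˣ`,
`x ↦ if 0 < x then 1 else -1`).  `ker Φ = HSub S` (`mem_HSub`).  The target is finite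
(`LSub_index_le`, `real_emb_finite`), so `Kˣ ⧸ HSub S` (`QuotientGroup.quotientKerEquivRange` for
`ker Φ = HSub S`) is finite and its cardinality is at most
`(∏ v ∈ S, 4 * nrm v ^ e2 v) * 2 ^ Nat.card (K →+* ℝ) ≤ 4^(NS S)`
(`LSub_index_le`, `card_sq_one`: `card (Kˣ ⧸ LSub v) ≤ 2 * (2 * nrm v ^ e2 v)`; `NS_bound`).
-/

namespace Pool.Agent.QD

open NumberField IsDedekindDomain Pool.Agent.HWR WithZero

variable {K : Type} [Field K] [NumberField K]

namespace GSCard

open Classical in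
/-- classes at the places of `S`, signs at the real embeddings -/
private noncomputable def F (S : Finset (HeightOneSpectrum (𝓞 K))) (x : Kˣ) :
    ((v : S) → Kˣ ⧸ LSub v.1) × ((K →+* ℝ) → Bool) :=
  (fun v => (QuotientGroup.mk x : Kˣ ⧸ LSub v.1), fun φ => decide (0 < φ (x : K)))

private theorem phi_mul (φ : K →+* ℝ) (x y : Kˣ) :
    φ (y : K) = φ (x : K) * φ ((x⁻¹ * y : Kˣ) : K) := by
  rw [← map_mul, ← Units.val_mul, mul_inv_cancel_left]

private theorem F_eq_iff (S : Finset (HeightOneSpectrum (𝓞 K))) (x y : Kˣ) :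
    F S x = F S y ↔ x⁻¹ * y ∈ HSub S := by
  rw [mem_HSub]
  unfold F
  rw [Prod.mk.injEq, funext_iff, funext_iff]
  refine and_congr ?_ ?_
  · constructor
    · intro h v hv
      exact mem_LSub.1 (QuotientGroup.eq.1 (h ⟨v, hv⟩))
    · intro h v
      exact QuotientGroup.eq.2 (mem_LSub.2 (h v.1 v.2))
  · refine forall_congr' fun φ => ?_
    rw [decide_eq_decide]
    have hx : φ (x : K) ≠ 0 := by
      rw [Ne, map_eq_zero]; exact x.ne_zero
    have hz : φ ((x⁻¹ * y : Kˣ) : K) ≠ 0 := by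
      rw [Ne, map_eq_zero]; exact (x⁻¹ * y).ne_zero
    rw [phi_mul φ x y]
    constructor
    · intro h
      rcases lt_or_gt_of_ne hx with h1 | h1
      · by_contra h2
        have h3 : φ ((x⁻¹ * y : Kˣ) : K) < 0 := lt_of_le_of_ne (not_lt.mp h2) hz
        exact absurd (h.2 (mul_pos_of_neg_of_neg h1 h3)) (not_lt.mpr h1.le)
      · exact (mul_pos_iff_of_pos_left h1).1 (h.1 h1)
    · intro h
      exact (mul_pos_iff_of_pos_right h).symm

/-- the embedding of `G_S` -/
private noncomputable def G (S : Finset (HeightOneSpectrum (𝓞 K))) (q : GS S) :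
    ((v : S) → Kˣ ⧸ LSub v.1) × ((K →+* ℝ) → Bool) :=
  Quotient.lift (s := QuotientGroup.leftRel (HSub S)) (F S)
    (fun x y h => (F_eq_iff S x y).2 (QuotientGroup.leftRel_apply.1 h)) q

private theorem G_inj (S : Finset (HeightOneSpectrum (𝓞 K))) : Function.Injective (G S) := by
  intro p q h
  induction p using QuotientGroup.induction_on with
  | H x =>
    induction q using QuotientGroup.induction_on with
    | H y => exact QuotientGroup.eq.2 ((F_eq_iff S x y).1 h)

private instance finT (S : Finset (HeightOneSpectrum (𝓞 K))) :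
    Finite (((v : S) → Kˣ ⧸ LSub v.1) × ((K →+* ℝ) → Bool)) := by
  haveI : ∀ v : S, Finite (Kˣ ⧸ LSub v.1) := fun v => (LSub_index_le v.1).1
  haveI : Finite ((v : S) → Kˣ ⧸ LSub v.1) := Pi.finite
  haveI : Finite ((K →+* ℝ) → Bool) := Pi.finite
  exact Finite.instProd

end GSCard

instance GS_finite (S : Finset (HeightOneSpectrum (𝓞 K))) : Finite (GS S) :=
  haveI := GSCard.finT S
  Finite.of_injective (GSCard.G S) (GSCard.G_inj S)

theorem GS_card (S : Finset (HeightOneSpectrum (𝓞 K))) : Nat.card (GS S) ≤ 4 ^ NS S := by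
  haveI := GSCard.finT S
  haveI : Fintype (K →+* ℝ) := Fintype.ofFinite _
  refine (Nat.card_le_card_of_injective (GSCard.G S) (GSCard.G_inj S)).trans ?_
  refine le_trans ?_ (NS_bound S)
  rw [Nat.card_prod, Nat.card_pi, Nat.card_fun, Nat.card_eq_fintype_card (α := Bool),
    Fintype.card_bool]
  refine Nat.mul_le_mul_right _ ?_
  rw [← Finset.prod_coe_sort S (fun v => 4 * nrm v ^ e2 v)]
  refine Finset.prod_le_prod' fun v _ => ?_
  refine (LSub_index_le v.1).2.trans ?_
  have h := card_sq_one v.1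
  calc 2 * Nat.card {a : 𝓞 K ⧸ v.1.asIdeal ^ (2 * e2 v.1 + 1) // a ^ 2 = 1}
      ≤ 2 * (2 * nrm v.1 ^ e2 v.1) := Nat.mul_le_mul_left _ h
    _ = 4 * nrm v.1 ^ e2 v.1 := by ring

end Pool.Agent.QD
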