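import Pool.Agent.QD.N1Main
import Pool.Agent.QD.N4Main
import Pool.Agent.QD.N3.Hensel
import Pool.Agent.HWR.SumNrm

/-!
# QD-N3-Inert: inert places exist

PLAN.  Suppose `x` is no square and `uK v x ≠ -1` for all `v ∉ S`.  Take `K' = K(√x)`
(`exists_ext_unit`).
Let `F` be the finite set of the places which are in `S`, or over `2`, or at which `ordK v x ≠ 0`
(`finite_mem 2`, `ordK_finite`).
For `v ∉ F`: `uK v x = 1` (`uK_of_even`, order `0`), so `ty K K' v = 1` (`ty_odd`, N4Main).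
For real `w > 1` (as a complex number): `ZP_quad` gives
`ZP K' w = ∏' v, zf (nrm v) (ty K K' v) w`, and `zf q 1 w = ((1 - q^(-w))⁻¹)^2`.
`zf q t w = ((1 - q^(-w))⁻¹)^2 * c_v(w)`, `c_v(w) = (1 - q^(-w)) / (1 - t q^(-w))`, `c_v = 1` for
`v ∉ F`.  The product of `(1 - q^(-w))⁻¹` over all `v` is multipliable.
So `ZP K' w = ZP K w ^ 2 * ∏ v ∈ F, c_v w`.
`N1Main.zeta_fe`: `Z_K w = (w-1) ZP K w`, `Z_K' w = (w-1) ZP K' w`, both continuous, nonzero at `1`.
So `(w - 1) Z_K' w = Z_K w ^ 2 * ∏ v ∈ F, c_v w` for real `w > 1`; let `w → 1+`.  Contradiction.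
-/

namespace Pool.Agent.QD

open NumberField IsDedekindDomain Pool.Agent.HWR Filter Topology

variable {K : Type} [Field K] [NumberField K]

theorem ty_cases (K' : Type) [Field K'] [NumberField K'] [Algebra K K']
    (v : HeightOneSpectrum (𝓞 K)) : ty K K' v = 1 ∨ ty K K' v = -1 ∨ ty K K' v = 0 := by
  unfold ty
  split_ifs <;> simp

private theorem two_le_nrm' (v : HeightOneSpectrum (𝓞 K)) : 2 ≤ nrm v := by
  have h0 := nrm_ne_zero v
  have h1 := nrm_ne_one v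
  omega

private theorem norm_nrm_cpow' (v : HeightOneSpectrum (𝓞 K)) (w : ℂ) :
    ‖(nrm v : ℂ) ^ (-w)‖ = (nrm v : ℝ) ^ (-w.re) := by
  rw [Complex.norm_natCast_cpow_of_pos (Nat.pos_of_ne_zero (nrm_ne_zero v))]
  simp

private theorem norm_nrm_cpow_le (v : HeightOneSpectrum (𝓞 K)) {w : ℂ} (hw : 1 ≤ w.re) :
    ‖(nrm v : ℂ) ^ (-w)‖ ≤ 1 / 2 := by
  rw [norm_nrm_cpow']
  have h2 : (2 : ℝ) ≤ nrm v := by exact_mod_cast two_le_nrm' v
  calc (nrm v : ℝ) ^ (-w.re) ≤ (nrm v : ℝ) ^ (-1 : ℝ) :=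
        Real.rpow_le_rpow_of_exponent_le (by linarith) (by linarith)
    _ = (nrm v : ℝ)⁻¹ := Real.rpow_neg_one _
    _ ≤ 1 / 2 := by
        rw [one_div]
        exact inv_anti₀ (by norm_num) h2

private theorem one_sub_ne (t : ℤ) (ht : t = 1 ∨ t = -1 ∨ t = 0) (v : HeightOneSpectrum (𝓞 K)) {w : ℂ}
    (hw : 1 ≤ w.re) : (1 - (t : ℂ) * (nrm v : ℂ) ^ (-w)) ≠ 0 := by
  intro h
  have h1 : (t : ℂ) * (nrm v : ℂ) ^ (-w) = 1 := (sub_eq_zero.1 h).symm
  have h2 : ‖(t : ℂ) * (nrm v : ℂ) ^ (-w)‖ = 1 := by rw [h1]; simp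
  rw [norm_mul] at h2
  have h3 := norm_nrm_cpow_le v hw
  have h4 : ‖(t : ℂ)‖ ≤ 1 := by
    rcases ht with rfl | rfl | rfl <;> simp
  have h5 : ‖(t : ℂ)‖ * ‖(nrm v : ℂ) ^ (-w)‖ ≤ 1 * (1 / 2) :=
    mul_le_mul h4 h3 (norm_nonneg _) zero_le_one
  rw [h2] at h5
  norm_num at h5

theorem ZP_multipliable (K : Type) [Field K] [NumberField K] {w : ℂ} (hw : 1 < w.re) :
    Multipliable fun v : HeightOneSpectrum (𝓞 K) => (1 - (nrm v : ℂ) ^ (-w))⁻¹ := by
  have hsum : Summable fun v : HeightOneSpectrum (𝓞 K) =>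
      ‖(nrm v : ℂ) ^ (-w) / (1 - (nrm v : ℂ) ^ (-w))‖ := by
    refine Summable.of_nonneg_of_le (fun _ => norm_nonneg _) ?_
      ((summable_nrm K hw).mul_left 2)
    intro v
    rw [norm_div, ← norm_nrm_cpow']
    have h1 := norm_nrm_cpow_le v hw.le
    have h2 : 1 / 2 ≤ ‖1 - (nrm v : ℂ) ^ (-w)‖ := by
      have h3 := norm_sub_norm_le (1 : ℂ) ((nrm v : ℂ) ^ (-w))
      rw [norm_one] at h3
      linarith
    rw [div_le_iff₀ (by linarith)]
    nlinarith [norm_nonneg ((nrm v : ℂ) ^ (-w))]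
  have h := multipliable_one_add_of_summable hsum
  refine h.congr ?_
  intro v
  have h1 := one_sub_ne 1 (Or.inl rfl) v hw.le
  rw [Int.cast_one, one_mul] at h1
  field_simp
  ring

/-- the correction factor -/
private noncomputable def cfac (q : ℕ) (t : ℤ) (w : ℂ) : ℂ :=
  (1 - (q : ℂ) ^ (-w)) * (1 - (t : ℂ) * (q : ℂ) ^ (-w))⁻¹

private theorem zf_eq (v : HeightOneSpectrum (𝓞 K)) (t : ℤ) {w : ℂ} (hw : 1 ≤ w.re) :
    zf (nrm v) t w = ((1 - (nrm v : ℂ) ^ (-w))⁻¹ * (1 - (nrm v : ℂ) ^ (-w))⁻¹) *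
      cfac (nrm v) t w := by
  have h1 := one_sub_ne 1 (Or.inl rfl) v hw
  rw [Int.cast_one, one_mul] at h1
  unfold zf cfac
  rw [mul_assoc, ← mul_assoc (1 - (nrm v : ℂ) ^ (-w))⁻¹ (1 - (nrm v : ℂ) ^ (-w)),
    inv_mul_cancel₀ h1, one_mul]

private theorem cfac_one (v : HeightOneSpectrum (𝓞 K)) {w : ℂ} (hw : 1 ≤ w.re) :
    cfac (nrm v) 1 w = 1 := by
  have h1 := one_sub_ne 1 (Or.inl rfl) v hw
  unfold cfac
  rw [Int.cast_one, one_mul] at h1 ⊢
  exact mul_inv_cancel₀ h1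

private theorem cfac_ne (v : HeightOneSpectrum (𝓞 K)) (t : ℤ) (ht : t = 1 ∨ t = -1 ∨ t = 0) {w : ℂ}
    (hw : 1 ≤ w.re) : cfac (nrm v) t w ≠ 0 := by
  have h1 := one_sub_ne 1 (Or.inl rfl) v hw
  rw [Int.cast_one, one_mul] at h1
  exact mul_ne_zero h1 (inv_ne_zero (one_sub_ne t ht v hw))

private theorem continuous_nrm_cpow (v : HeightOneSpectrum (𝓞 K)) :
    Continuous fun w : ℂ => (nrm v : ℂ) ^ (-w) := by
  have h : (nrm v : ℂ) ≠ 0 := by exact_mod_cast nrm_ne_zero v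
  exact continuous_neg.const_cpow (Or.inl h)

private theorem cfac_continuousAt (v : HeightOneSpectrum (𝓞 K)) (t : ℤ) (ht : t = 1 ∨ t = -1 ∨ t = 0)
    {w : ℂ} (hw : 1 ≤ w.re) : ContinuousAt (fun w : ℂ => cfac (nrm v) t w) w := by
  have h1 := (continuous_nrm_cpow v)
  unfold cfac
  refine ContinuousAt.mul (continuous_const.sub h1).continuousAt ?_
  exact ContinuousAt.inv₀ (continuous_const.sub (continuous_const.mul h1)).continuousAt
    (one_sub_ne t ht v hw)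

/-- inert places exist -/
theorem exists_inert (S : Finset (HeightOneSpectrum (𝓞 K))) (x : Kˣ) (hx : ¬ IsSquare x) :
    ∃ v : HeightOneSpectrum (𝓞 K), v ∉ S ∧ uK v x = -1 := by
  classical
  by_contra hcon
  push Not at hcon
  obtain ⟨K', hK1, hK2, hK3, θ, hdeg, hθ⟩ := exists_ext_unit x hx
  have hfin : ((S : Set (HeightOneSpectrum (𝓞 K))) ∪
      ({v : HeightOneSpectrum (𝓞 K) | (2 : 𝓞 K) ∈ v.asIdeal} ∪
        {v : HeightOneSpectrum (𝓞 K) | ordK v x ≠ 0})).Finite :=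
    S.finite_toSet.union ((finite_mem 2 two_ne_zero).union (ordK_finite x))
  set F := hfin.toFinset with hF
  have hty : ∀ v, v ∉ F → ty K K' v = 1 := by
    intro v hv
    rw [hF, Set.Finite.mem_toFinset, Set.mem_union, Set.mem_union, not_or, not_or] at hv
    obtain ⟨h1, h2, h3⟩ := hv
    rw [ty_odd K' hdeg x θ hθ hx v h2]
    have h4 : ordK v x = 0 := by
      by_contra h
      exact h3 h
    rcases uK_of_even (v := v) (x := x) (by rw [h4]; exact Even.zero) with h | h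
    · exact h
    · exact absurd h (hcon v (by simpa using h1))
  have hprod : ∀ w : ℂ, 1 < w.re →
      ZP K' w = ZP K w ^ 2 * ∏ v ∈ F, cfac (nrm v) (ty K K' v) w := by
    intro w hw
    have hm := ZP_multipliable K hw
    have hc : ∀ v, v ∉ F → cfac (nrm v) (ty K K' v) w = 1 := by
      intro v hv
      rw [hty v hv]
      exact cfac_one v hw.le
    have hmc : Multipliable fun v => cfac (nrm v) (ty K K' v) w :=
      multipliable_of_ne_finset_one hc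
    rw [ZP_quad K' hdeg hw]
    have h1 : (fun v : HeightOneSpectrum (𝓞 K) => zf (nrm v) (ty K K' v) w) = fun v =>
        ((1 - (nrm v : ℂ) ^ (-w))⁻¹ * (1 - (nrm v : ℂ) ^ (-w))⁻¹) *
          cfac (nrm v) (ty K K' v) w := by
      funext v
      exact zf_eq v _ hw.le
    rw [h1, (hm.mul hm).tprod_mul hmc, hm.tprod_mul hm, tprod_eq_prod hc, sq]
    rfl
  obtain ⟨Z, hZd, -, hZ1, hZ, -⟩ := zeta_fe K
  obtain ⟨Z', hZd', -, hZ1', hZ', -⟩ := zeta_fe K'
  have hev : ∀ r : ℝ, r ∈ Set.Ioi (1 : ℝ) → ((r : ℂ) - 1) * Z' r =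
      Z r ^ 2 * ∏ v ∈ F, cfac (nrm v) (ty K K' v) r := by
    intro r hr
    have hr' : 1 < (r : ℂ).re := by simpa using hr
    rw [hZ' _ hr', hZ _ hr', hprod _ hr']
    ring
  have hco : Continuous fun r : ℝ => (r : ℂ) := Complex.continuous_ofReal
  have h1 : Tendsto (fun r : ℝ => ((r : ℂ) - 1) * Z' r) (𝓝[>] (1 : ℝ)) (𝓝 0) := by
    have h2 : Continuous fun r : ℝ => ((r : ℂ) - 1) * Z' r :=
      (hco.sub continuous_const).mul (hZd'.continuous.comp hco)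
    have h3 := h2.tendsto 1
    simp only [Complex.ofReal_one, sub_self, zero_mul] at h3
    exact h3.mono_left nhdsWithin_le_nhds
  have h2 : Tendsto (fun r : ℝ => Z r ^ 2 * ∏ v ∈ F, cfac (nrm v) (ty K K' v) r)
      (𝓝[>] (1 : ℝ)) (𝓝 (Z 1 ^ 2 * ∏ v ∈ F, cfac (nrm v) (ty K K' v) 1)) := by
    have h3 : ContinuousAt (fun w : ℂ => Z w ^ 2 * ∏ v ∈ F, cfac (nrm v) (ty K K' v) w) 1 := by
      refine ContinuousAt.mul (hZd.continuous.pow 2).continuousAt ?_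
      refine tendsto_finsetProd _ ?_
      intro v _
      exact cfac_continuousAt v _ (ty_cases K' v) (by simp)
    have h4 : Tendsto (fun r : ℝ => (r : ℂ)) (𝓝[>] (1 : ℝ)) (𝓝 (1 : ℂ)) := by
      have h5 := hco.tendsto 1
      simp only [Complex.ofReal_one] at h5
      exact h5.mono_left nhdsWithin_le_nhds
    exact h3.tendsto.comp h4
  have h3 : Tendsto (fun r : ℝ => Z r ^ 2 * ∏ v ∈ F, cfac (nrm v) (ty K K' v) r)
      (𝓝[>] (1 : ℝ)) (𝓝 0) := by
    refine h1.congr' ?_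
    filter_upwards [self_mem_nhdsWithin] with r hr
    exact hev r hr
  have h4 := tendsto_nhds_unique h2 h3
  rcases mul_eq_zero.1 h4 with h | h
  · exact hZ1 (by simpa using h)
  · obtain ⟨v, -, hv⟩ := Finset.prod_eq_zero_iff.1 h
    exact cfac_ne v _ (ty_cases K' v) (by simp) hv

end Pool.Agent.QD
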