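import Pool.Agent.QD.N3.Basic

/-!
# QD-N3-LocB: roots of one modulo `v^(2e+1)`

PLAN.  `R = 𝓞 K ⧸ v^(2e+1)`, `e = e2 v` the order of `2` at `v` (`ordK_two`, `two_mem_pow`,
`le_ordK_iff_of_int`: `2 ∈ v^e`, `2 ∉ v^(e+1)`).  Let `a ∈ 𝓞 K` with `a^2 - 1 ∈ v^(2e+1)`.
Claim: `a - 1 ∈ v^(e+1)` or `a + 1 ∈ v^(e+1)`.  If `a = ± 1` clear.  Otherwise
`ord(a-1) + ord(a+1) ≥ 2e+1` (`ordK_mul` and `le_ordK_iff_of_int`, or `v.intValuation`), so one of
the two orders is at least `e+1`.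
So the set of the classes `a` with `a^2 = 1` is contained in the union of the two sets
`±1 + I`, where `I = v^(e+1) R` (kernel of `R → 𝓞 K ⧸ v^(e+1)`, `Ideal.Quotient.factor`), and
`card I = N(v^(2e+1)) / N(v^(e+1)) = (nrm v)^e`:
`card R = absNorm (v^(2e+1)) = (nrm v)^(2e+1)` (`Ideal.absNorm_apply`, `Submodule.cardQuot_apply`,
`map_pow`), same for `e+1`, and the fibres of the surjective additive map
`R → 𝓞 K ⧸ v^(e+1)` all have the same cardinality
(`Nat.card R = Nat.card (ker) * Nat.card (range)`, e.g. `AddSubgroup.card_eq_card_quotient_mul_card_addSubgroup`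
and the first isomorphism theorem).
-/

namespace Pool.Agent.QD

open NumberField IsDedekindDomain Pool.Agent.HWR WithZero

variable {K : Type} [Field K] [NumberField K]

private theorem card_quot_pow (v : HeightOneSpectrum (𝓞 K)) (m : ℕ) :
    Nat.card (𝓞 K ⧸ v.asIdeal ^ m) = nrm v ^ m := by
  rw [nrm, ← map_pow, Ideal.absNorm_apply, Submodule.cardQuot_apply]

private theorem nrm_pos' (v : HeightOneSpectrum (𝓞 K)) : 0 < nrm v := by
  rw [nrm, Nat.pos_iff_ne_zero, Ne, Ideal.absNorm_eq_zero_iff]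
  exact v.ne_bot

private theorem split_mem (v : HeightOneSpectrum (𝓞 K)) (e : ℕ) (a : 𝓞 K)
    (h : a ^ 2 - 1 ∈ v.asIdeal ^ (2 * e + 1)) :
    a - 1 ∈ v.asIdeal ^ (e + 1) ∨ a + 1 ∈ v.asIdeal ^ (e + 1) := by
  by_contra hcon
  rw [not_or] at hcon
  obtain ⟨h1, h2⟩ := hcon
  have key : ∀ b : 𝓞 K, b ∉ v.asIdeal ^ (e + 1) → exp (-(e : ℤ)) ≤ v.intValuation b := by
    intro b hb
    rw [← v.intValuation_le_pow_iff_mem, not_le] at hb
    have hb0 : v.intValuation b ≠ 0 := by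
      intro h0
      rw [h0] at hb
      exact absurd hb (not_lt.2 zero_le)
    have hb1 : v.intValuation b = exp (log (v.intValuation b)) := (exp_log hb0).symm
    rw [hb1, exp_lt_exp] at hb
    rw [hb1, exp_le_exp]
    push_cast at hb
    linarith
  have h3 := key _ h1
  have h4 := key _ h2
  have h5 : exp (-(e : ℤ)) * exp (-(e : ℤ)) ≤ v.intValuation (a - 1) * v.intValuation (a + 1) :=
    mul_le_mul' h3 h4
  rw [← map_mul, show (a - 1) * (a + 1) = a ^ 2 - 1 by ring, ← exp_add] at h5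
  rw [← v.intValuation_le_pow_iff_mem] at h
  have h6 := h5.trans h
  rw [exp_le_exp] at h6
  push_cast at h6
  linarith

theorem finite_quot_pow (v : HeightOneSpectrum (𝓞 K)) (m : ℕ) :
    Finite (𝓞 K ⧸ v.asIdeal ^ m) := by
  have h : Nat.card (𝓞 K ⧸ v.asIdeal ^ m) ≠ 0 := by
    rw [card_quot_pow]
    exact (pow_pos (nrm_pos' v) m).ne'
  exact (Nat.card_ne_zero.1 h).2

theorem card_sq_one (v : HeightOneSpectrum (𝓞 K)) :
    Nat.card {a : 𝓞 K ⧸ v.asIdeal ^ (2 * e2 v + 1) // a ^ 2 = 1} ≤ 2 * nrm v ^ e2 v := by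
  set e := e2 v with he
  have hle : v.asIdeal ^ (2 * e + 1) ≤ v.asIdeal ^ (e + 1) := Ideal.pow_le_pow_right (by omega)
  set f : 𝓞 K ⧸ v.asIdeal ^ (2 * e + 1) →+* 𝓞 K ⧸ v.asIdeal ^ (e + 1) :=
    Ideal.Quotient.factor hle with hf
  have : Finite (𝓞 K ⧸ v.asIdeal ^ (2 * e + 1)) := finite_quot_pow v _
  have hsurj : Function.Surjective f.toAddMonoidHom := by
    intro y
    obtain ⟨b, rfl⟩ := Ideal.Quotient.mk_surjective y
    exact ⟨Ideal.Quotient.mk _ b, rfl⟩
  have hcard : Nat.card f.toAddMonoidHom.ker = nrm v ^ e := by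
    have h1 := AddSubgroup.card_eq_card_quotient_mul_card_addSubgroup f.toAddMonoidHom.ker
    rw [Nat.card_congr (QuotientAddGroup.quotientKerEquivOfSurjective f.toAddMonoidHom
      hsurj).toEquiv, card_quot_pow, card_quot_pow] at h1
    have h2 : nrm v ^ (2 * e + 1) = nrm v ^ (e + 1) * nrm v ^ e := by
      rw [← pow_add]
      congr 1
      ring
    exact (Nat.eq_of_mul_eq_mul_left (pow_pos (nrm_pos' v) _) (h2.symm.trans h1)).symm
  have hk : ∀ a : 𝓞 K ⧸ v.asIdeal ^ (2 * e + 1), a ^ 2 = 1 →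
      a - 1 ∈ f.toAddMonoidHom.ker ∨ a + 1 ∈ f.toAddMonoidHom.ker := by
    intro a ha
    obtain ⟨b, rfl⟩ := Ideal.Quotient.mk_surjective a
    have h1 : b ^ 2 - 1 ∈ v.asIdeal ^ (2 * e + 1) := by
      rw [← Ideal.Quotient.eq_zero_iff_mem, map_sub, map_pow, map_one, ha, sub_self]
    rcases split_mem v e b h1 with h2 | h2
    · left
      have h3 : f.toAddMonoidHom (Ideal.Quotient.mk _ b - 1) =
          Ideal.Quotient.mk (v.asIdeal ^ (e + 1)) (b - 1) := rfl
      rw [AddMonoidHom.mem_ker, h3]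
      exact Ideal.Quotient.eq_zero_iff_mem.2 h2
    · right
      have h3 : f.toAddMonoidHom (Ideal.Quotient.mk _ b + 1) =
          Ideal.Quotient.mk (v.asIdeal ^ (e + 1)) (b + 1) := rfl
      rw [AddMonoidHom.mem_ker, h3]
      exact Ideal.Quotient.eq_zero_iff_mem.2 h2
  classical
  let g : {a : 𝓞 K ⧸ v.asIdeal ^ (2 * e + 1) // a ^ 2 = 1} → Bool × f.toAddMonoidHom.ker :=
    fun a => if h : a.1 - 1 ∈ f.toAddMonoidHom.ker then (true, ⟨a.1 - 1, h⟩)
      else (false, ⟨a.1 + 1, (hk a.1 a.2).resolve_left h⟩)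
  have hg : Function.Injective g := by
    intro a b hab
    simp only [g] at hab
    split_ifs at hab with h1 h2 h2
    · have h3 := congrArg (fun x : Bool × f.toAddMonoidHom.ker =>
        (x.2 : 𝓞 K ⧸ v.asIdeal ^ (2 * e + 1))) hab
      simp only [sub_left_inj] at h3
      exact Subtype.ext h3
    · exact absurd (congrArg Prod.fst hab) (by simp)
    · exact absurd (congrArg Prod.fst hab) (by simp)
    · have h3 := congrArg (fun x : Bool × f.toAddMonoidHom.ker =>
        (x.2 : 𝓞 K ⧸ v.asIdeal ^ (2 * e + 1))) hab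
      simp only [add_left_inj] at h3
      exact Subtype.ext h3
  have h5 := Nat.card_le_card_of_injective g hg
  rw [Nat.card_prod, hcard] at h5
  simpa using h5

end Pool.Agent.QD
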