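import Pool.Agent.QD.N3.Hensel
import Pool.Agent.QD.N3.LocB

/-!
# QD-N3-LocA: the index of the local squares at `v`

PLAN.  `m = 2 e2 v + 1`, `R = 𝓞 K ⧸ v^m`, finite (`finite_quot_pow`).
(1) For `a, b ∈ 𝓞 K` not in `v` with `a - b ∈ v^m`: `a / b` (as elements of `Kˣ`) is in `LSub v`:
`v(a/b - 1) = v(a - b) ≤ exp(-m)` (`closeOne`), then `LSq_of_close`.
(2) Group homomorphism `f : Rˣ →* Kˣ ⧸ LSub v`: choose for every unit `c` of `R` a representative
`a c ∈ 𝓞 K` (`Ideal.Quotient.mk_surjective`, `Function.surjInv`); `a c ∉ v`, since `a c` is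
invertible modulo `v^m ⊆ v` (`m ≥ 1`); `f c` = class of `a c`; multiplicative by (1).
(3) If `x ∈ Kˣ`, `ordK v x = 0`, then the class of `x` is in the range of `f`: write `x = a / b`,
`a, b ∈ 𝓞 K ∖ v`: `x = a / b` with `a,b` integral; to have `b ∉ v` use
`IsLocalization.AtPrime`-type facts, or: choose `c ∈ 𝓞 K` with `ord_v (b c) = ...` - simplest:
by strong approximation there is `t ∈ 𝓞 K`, `t ∉ v` and `t x ∈ 𝓞 K`
(the ideal `{t | t x ∈ 𝓞 K}` is `∏ w^(max(0,-ord_w x))`, not contained in `v`; in Mathlib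
`IsDedekindDomain.HeightOneSpectrum.exists_primeCompl...` or
`IsDedekindDomain.HeightOneSpectrum.mem_localizationAtPrime...`: an element of valuation `≤ 1` is in the
localization at `v`, look for `valuation_le_one_iff`/`exists_adicValued...`/
`IsDedekindDomain.HeightOneSpectrum.valuationSubringAtPrime`).  Then `t x ∉ v`, too, and the classes of `t` and of
`t x` are in the range of `f`.
(4) `g : Kˣ ⧸ LSub v →* Multiplicative (ZMod 2)` induced by the order modulo 2
(`QuotientGroup.lift`, `even_of_LSq`); its kernel is contained in the range of `f`: if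
`ordK v x = 2 k`, take `π` with `ordK v π = 1` (`v.valuation_exists_uniformizer K`); `x π^(-2k)` has
order `0` and the same class as `x`.  So `card (Kˣ ⧸ LSub v) ≤ 2 * card (range f)`
(card of the group = card ker * card range).
(5) `f` kills squares (`LSq_sq`), so
`card (range f) = card Rˣ / card (ker f) ≤ card Rˣ / card (range of squaring) = card (kernel of
squaring on Rˣ) ≤ card {a : R // a^2 = 1}` (`Subgroup.card_eq_card_quotient_mul_card_subgroup`,
`QuotientGroup.quotientKerEquivRange`, `powMonoidHom 2`).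
-/

namespace Pool.Agent.QD

open NumberField IsDedekindDomain Pool.Agent.HWR WithZero

variable {K : Type} [Field K] [NumberField K]

open Classical in
/-- the unit of `K` defined by an integral element -/
private noncomputable def tok (a : 𝓞 K) : Kˣ :=
  if h : algebraMap (𝓞 K) K a = 0 then 1 else Units.mk0 _ h

private theorem tok_val (v : HeightOneSpectrum (𝓞 K)) {a : 𝓞 K} (ha : a ∉ v.asIdeal) :
    ((tok a : Kˣ) : K) = algebraMap (𝓞 K) K a := by
  have h : algebraMap (𝓞 K) K a ≠ 0 := by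
    intro h
    apply ha
    have : a = 0 := by simpa using h
    rw [this]
    exact v.asIdeal.zero_mem
  unfold tok
  rw [dif_neg h]
  rfl

private theorem close_div (v : HeightOneSpectrum (𝓞 K)) {a b : 𝓞 K} (ha : a ∉ v.asIdeal)
    (hb : b ∉ v.asIdeal) (hab : a - b ∈ v.asIdeal ^ (2 * e2 v + 1)) : LSq v (tok b / tok a)⁻¹ := by
  rw [inv_div]
  apply LSq_of_close
  unfold closeOne
  have hb1 : v.valuation K ((tok b : Kˣ) : K) = 1 := by
    rw [tok_val v hb]
    exact (HeightOneSpectrum.valuation_eq_one_iff_notMem (K := K) v).2 hb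
  have hb0 : ((tok b : Kˣ) : K) ≠ 0 := (tok b).ne_zero
  have e : ((tok a / tok b : Kˣ) : K) - 1 = (algebraMap (𝓞 K) K (a - b)) / ((tok b : Kˣ) : K) := by
    rw [Units.val_div_eq_div_val, map_sub, ← tok_val v ha, ← tok_val v hb]
    field_simp
  rw [e, map_div₀, hb1, div_one, v.valuation_of_algebraMap]
  exact (v.intValuation_le_pow_iff_mem _ _).2 hab

private theorem mk_tok (v : HeightOneSpectrum (𝓞 K)) {a b : 𝓞 K} (ha : a ∉ v.asIdeal)
    (hb : b ∉ v.asIdeal) (hab : a - b ∈ v.asIdeal ^ (2 * e2 v + 1)) :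
    (QuotientGroup.mk (tok b) : Kˣ ⧸ LSub v) = QuotientGroup.mk (tok a) := by
  rw [QuotientGroup.eq]
  have := close_div v ha hb hab
  rw [inv_div, div_eq_inv_mul] at this
  exact this

private theorem unit_not_mem (v : HeightOneSpectrum (𝓞 K)) {m : ℕ} (hm : m ≠ 0) {a : 𝓞 K}
    {c : (𝓞 K ⧸ v.asIdeal ^ m)ˣ} (h : Ideal.Quotient.mk (v.asIdeal ^ m) a = c) :
    a ∉ v.asIdeal := by
  intro ha
  obtain ⟨b, hb⟩ := Ideal.Quotient.mk_surjective (I := v.asIdeal ^ m) ((c⁻¹ : _ˣ) : 𝓞 K ⧸ v.asIdeal ^ m)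
  have h1 : Ideal.Quotient.mk (v.asIdeal ^ m) (a * b) = Ideal.Quotient.mk (v.asIdeal ^ m) 1 := by
    rw [map_mul, h, hb, map_one, Units.mul_inv]
  rw [Ideal.Quotient.eq] at h1
  have h2 : a * b - 1 ∈ v.asIdeal := Ideal.pow_le_self hm h1
  have h3 : (1 : 𝓞 K) ∈ v.asIdeal := by
    have := v.asIdeal.sub_mem (v.asIdeal.mul_mem_right b ha) h2
    simpa using this
  exact v.isPrime.ne_top ((Ideal.eq_top_iff_one _).2 h3)

private theorem not_mem_unit (v : HeightOneSpectrum (𝓞 K)) (m : ℕ) {a : 𝓞 K}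
    (ha : a ∉ v.asIdeal) : ∃ c : (𝓞 K ⧸ v.asIdeal ^ m)ˣ, Ideal.Quotient.mk (v.asIdeal ^ m) a = c := by
  have := v.isMaximal
  obtain ⟨y, i, hi, h⟩ := Ideal.IsMaximal.exists_inv_pow v.asIdeal ha m
  have h1 : Ideal.Quotient.mk (v.asIdeal ^ m) a * Ideal.Quotient.mk (v.asIdeal ^ m) y = 1 := by
    rw [← map_mul, ← map_one (Ideal.Quotient.mk (v.asIdeal ^ m)), Ideal.Quotient.eq, ← h]
    have : a * y - (y * a + i) = -i := by ring
    rw [this]
    exact Ideal.neg_mem_iff _ |>.2 hi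
  exact ⟨Units.mkOfMulEqOne _ _ h1, rfl⟩

private noncomputable def rep (v : HeightOneSpectrum (𝓞 K)) (m : ℕ)
    (c : (𝓞 K ⧸ v.asIdeal ^ m)ˣ) : 𝓞 K :=
  Function.surjInv (Ideal.Quotient.mk_surjective (I := v.asIdeal ^ m)) (c : 𝓞 K ⧸ v.asIdeal ^ m)

private theorem rep_spec (v : HeightOneSpectrum (𝓞 K)) (m : ℕ)
    (c : (𝓞 K ⧸ v.asIdeal ^ m)ˣ) : Ideal.Quotient.mk (v.asIdeal ^ m) (rep v m c) = c :=
  Function.surjInv_eq _ _

private theorem rep_not_mem (v : HeightOneSpectrum (𝓞 K))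
    (c : (𝓞 K ⧸ v.asIdeal ^ (2 * e2 v + 1))ˣ) : rep v _ c ∉ v.asIdeal :=
  unit_not_mem v (Nat.succ_ne_zero _) (rep_spec v _ c)

private noncomputable def fh (v : HeightOneSpectrum (𝓞 K)) :
    (𝓞 K ⧸ v.asIdeal ^ (2 * e2 v + 1))ˣ →* Kˣ ⧸ LSub v :=
  MonoidHom.mk' (fun c => QuotientGroup.mk (tok (rep v _ c))) (by
    intro c d
    have hc := rep_not_mem v c
    have hd := rep_not_mem v d
    have hcd : rep v _ c * rep v _ d ∉ v.asIdeal := by
      intro h
      rcases v.isPrime.mem_or_mem h with h | h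
      · exact hc h
      · exact hd h
    have h1 : (tok (rep v _ c) * tok (rep v _ d) : Kˣ) = tok (rep v _ c * rep v _ d) := by
      ext
      rw [Units.val_mul, tok_val v hc, tok_val v hd, tok_val v hcd, map_mul]
    rw [← QuotientGroup.mk_mul, h1]
    apply mk_tok v hcd (rep_not_mem v _)
    rw [← Ideal.Quotient.eq, map_mul, rep_spec, rep_spec, rep_spec, Units.val_mul])

private theorem fh_apply (v : HeightOneSpectrum (𝓞 K))
    (c : (𝓞 K ⧸ v.asIdeal ^ (2 * e2 v + 1))ˣ) :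
    fh v c = QuotientGroup.mk (tok (rep v _ c)) := rfl

private theorem tok_mem (v : HeightOneSpectrum (𝓞 K)) {a : 𝓞 K} (ha : a ∉ v.asIdeal) :
    (QuotientGroup.mk (tok a) : Kˣ ⧸ LSub v) ∈ (fh v).range := by
  obtain ⟨c, hc⟩ := not_mem_unit v (2 * e2 v + 1) ha
  refine ⟨c, ?_⟩
  rw [fh_apply]
  apply mk_tok v ha (rep_not_mem v c)
  rw [← Ideal.Quotient.eq, hc, rep_spec]

private theorem ord_zero_mem (v : HeightOneSpectrum (𝓞 K)) {x : Kˣ} (hx : ordK v x = 0) :
    (QuotientGroup.mk x : Kˣ ⧸ LSub v) ∈ (fh v).range := by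
  have hv : v.valuation K (x : K) = 1 := by
    rw [val_eq_exp, hx]; simp
  obtain ⟨n, d, hnd⟩ := HeightOneSpectrum.exists_primeCompl_mul_eq_of_integer v (x : K) hv.le
  have hd : (d : 𝓞 K) ∉ v.asIdeal := d.2
  have hn : n ∉ v.asIdeal := by
    rw [← HeightOneSpectrum.valuation_eq_one_iff_notMem (K := K) v, ← hnd, map_mul, hv, one_mul]
    exact (HeightOneSpectrum.valuation_eq_one_iff_notMem (K := K) v).2 hd
  have h : x * tok (d : 𝓞 K) = tok n := by
    ext
    rw [Units.val_mul, tok_val v hd, tok_val v hn]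
    exact hnd
  have h2 : x = tok n * (tok (d : 𝓞 K))⁻¹ := by rw [← h]; group
  rw [h2, QuotientGroup.mk_mul, QuotientGroup.mk_inv]
  exact (fh v).range.mul_mem (tok_mem v hn) ((fh v).range.inv_mem (tok_mem v hd))

private noncomputable def gh (v : HeightOneSpectrum (𝓞 K)) :
    Kˣ ⧸ LSub v →* Multiplicative (ZMod 2) :=
  QuotientGroup.lift (LSub v) ((Int.castAddHom (ZMod 2)).toMultiplicative.comp (ordHom v)) (by
    intro x hx
    have h := even_of_LSq (mem_LSub.1 hx)
    change Multiplicative.ofAdd ((ordK v x : ℤ) : ZMod 2) = 1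
    rw [ZMod.intCast_eq_zero_iff_even.2 h]
    rfl)

private theorem gh_ker (v : HeightOneSpectrum (𝓞 K)) : (gh v).ker ≤ (fh v).range := by
  intro q hq
  induction q using QuotientGroup.induction_on with
  | H x =>
    have h1 : Multiplicative.ofAdd ((ordK v x : ℤ) : ZMod 2) = 1 := hq
    have h2 : ((ordK v x : ℤ) : ZMod 2) = 0 := h1
    rw [ZMod.intCast_eq_zero_iff_even] at h2
    obtain ⟨k, hk⟩ := h2
    obtain ⟨π, hπ⟩ := v.valuation_exists_uniformizer K
    have hπ0 : π ≠ 0 := by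
      rintro rfl
      rw [map_zero] at hπ
      exact exp_ne_zero hπ.symm
    have hord : ordK v (Units.mk0 π hπ0) = 1 := by
      rw [ordK_eq_iff]
      exact hπ
    have h3 : ordK v (x / ((Units.mk0 π hπ0) ^ k) ^ 2) = 0 := by
      rw [ordK_div, ordK_pow, ordK_zpow, hord, hk]
      push_cast
      ring
    have h4 := ord_zero_mem v h3
    have h5 : (QuotientGroup.mk x : Kˣ ⧸ LSub v) =
        QuotientGroup.mk (x / ((Units.mk0 π hπ0) ^ k) ^ 2) := by
      rw [QuotientGroup.eq]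
      have : x⁻¹ * (x / (Units.mk0 π hπ0 ^ k) ^ 2) = ((Units.mk0 π hπ0 ^ k) ^ 2)⁻¹ := by
        rw [div_eq_mul_inv, inv_mul_cancel_left]
      rw [this]
      exact (LSub v).inv_mem (LSq_sq v _)
    rw [h5]
    exact h4

theorem LSub_index_le (v : HeightOneSpectrum (𝓞 K)) :
    Finite (Kˣ ⧸ LSub v) ∧ Nat.card (Kˣ ⧸ LSub v) ≤
      2 * Nat.card {a : 𝓞 K ⧸ v.asIdeal ^ (2 * e2 v + 1) // a ^ 2 = 1} := by
  have hfin : Finite (𝓞 K ⧸ v.asIdeal ^ (2 * e2 v + 1)) := finite_quot_pow v _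
  have : Finite (fh v).range := Finite.of_surjective (fh v).rangeRestrict
    (fh v).rangeRestrict_surjective
  have hidx : (fh v).range.index ∣ Nat.card (gh v).range := by
    rw [← Subgroup.index_ker]
    exact Subgroup.index_dvd_of_le (gh_ker v)
  have hg : Nat.card (gh v).range ≤ 2 := by
    have := Subgroup.card_le_card_group (gh v).range
    simpa using this
  have hgpos : 0 < Nat.card (gh v).range := Nat.card_pos
  have hi2 : (fh v).range.index ≤ 2 := (Nat.le_of_dvd hgpos hidx).trans hg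
  have hi0 : 0 < (fh v).range.index := Nat.pos_of_dvd_of_pos hidx hgpos
  have hr0 : 0 < Nat.card (fh v).range := Nat.card_pos
  have hmul := Subgroup.card_mul_index (fh v).range
  have hcard0 : 0 < Nat.card (Kˣ ⧸ LSub v) := by rw [← hmul]; positivity
  refine ⟨Nat.finite_of_card_ne_zero hcard0.ne', ?_⟩
  have hrange : Nat.card (fh v).range ≤
      Nat.card {a : 𝓞 K ⧸ v.asIdeal ^ (2 * e2 v + 1) // a ^ 2 = 1} := by
    have h1 : (powMonoidHom 2 : (𝓞 K ⧸ v.asIdeal ^ (2 * e2 v + 1))ˣ →* _).range ≤ (fh v).ker := by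
      rintro _ ⟨c, rfl⟩
      rw [MonoidHom.mem_ker, powMonoidHom_apply, map_pow, fh_apply, ← QuotientGroup.mk_pow,
        QuotientGroup.eq_one_iff]
      exact LSq_sq v _
    have h2 := Subgroup.index_dvd_of_le h1
    rw [Subgroup.index_ker, Subgroup.index_range] at h2
    have h3 : Nat.card (powMonoidHom 2 : (𝓞 K ⧸ v.asIdeal ^ (2 * e2 v + 1))ˣ →* _).ker ≤
        Nat.card {a : 𝓞 K ⧸ v.asIdeal ^ (2 * e2 v + 1) // a ^ 2 = 1} := by
      apply Nat.card_le_card_of_injective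
        (fun (u : (powMonoidHom 2 : (𝓞 K ⧸ v.asIdeal ^ (2 * e2 v + 1))ˣ →* _).ker) =>
          (⟨((u.1 : (𝓞 K ⧸ v.asIdeal ^ (2 * e2 v + 1))ˣ) : 𝓞 K ⧸ v.asIdeal ^ (2 * e2 v + 1)), by
          have h4 := u.2
          rw [MonoidHom.mem_ker, powMonoidHom_apply] at h4
          rw [← Units.val_pow_eq_pow_val, h4, Units.val_one]⟩ :
            {a : 𝓞 K ⧸ v.asIdeal ^ (2 * e2 v + 1) // a ^ 2 = 1}))
      intro u w h
      have h5 := congrArg Subtype.val h
      exact Subtype.ext (Units.ext h5)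
    exact (Nat.le_of_dvd Nat.card_pos h2).trans h3
  rw [← hmul]
  calc Nat.card (fh v).range * (fh v).range.index ≤ Nat.card (fh v).range * 2 :=
        Nat.mul_le_mul_left _ hi2
    _ = 2 * Nat.card (fh v).range := Nat.mul_comm _ _
    _ ≤ _ := Nat.mul_le_mul_left _ hrange

end Pool.Agent.QD
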