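import Pool.Agent.QD.N3.SUnitA

/-!
# QD-N3-SUnitB: many `S`-units modulo squares

PLAN.  `NS S = #S + r1 + r2 = #S + 1 + rank`, where `rank = NumberField.Units.rank K = r1 + r2 - 1`
(`Units.rank`, `Fintype.card (InfinitePlace K) - 1`, `card (InfinitePlace K) = r1 + r2`).
Let `s`, `a` be as in `SU_basis`.
(1) For `c : ℤ`, `f : Fin rank → ℤ`, `g : Fin s → ℤ` let
`E = ζ^c ∏ ε_i^(f i) ∏ a_j^(g j) ∈ SU S`, `ζ` a generator of `Units.torsion K`
(cyclic, `IsCyclic.exists_generator`), `ε_i = Units.fundSystem K i` (coerced to `Kˣ` by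
`Units.map (algebraMap (𝓞 K) K)`, `ordK_unit`).
(2) Claim: if `E` is a square in `Kˣ`, then `c`, all `f i`, all `g j` are even.  `E = y^2`; `y ∈ SU S`
(`2 ordK v y = 0`).  `SU_basis` for `y`: `y / ∏ a_j^(y_j)` has all orders `0`, `E = y^2` gives that
`∏ a_j^(g_j - 2 y_j)` has all orders `0`, so `g_j = 2 y_j`.
Then `ζ^c ∏ ε_i^(f i) = (y ∏ a_j^(-y_j))^2`, and `y ∏ a_j^(-y_j)` is a unit of `𝓞 K` by `unit_coe`,
`= ζ^k ∏ ε_i^(k_i)` (`Units.exist_unique_eq_mul_prod` and the generator `ζ`); uniqueness in that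
theorem: `f i = 2 k_i` and `ζ^c = ζ^(2k)`, so `c - 2 k` is divisible by the order of `ζ`, which is
even (`Units.even_torsionOrder`, `orderOf_generator_eq_natCard`).
(3) Take an equivalence `Fin (NS S) ≃ Unit ⊕ Fin rank ⊕ Fin (#S)`, embed `Fin #S` in `Fin s`
(`Fin.castLE`), and let `f e` be the element `E` with exponents `0, 1` according to `e`.  If
`f e / f e'` is a square, the differences of the exponents are in `{-1,0,1}` and even, so `e = e'`.
-/

namespace Pool.Agent.QD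

open NumberField IsDedekindDomain Pool.Agent.HWR WithZero

variable {K : Type} [Field K] [NumberField K]

/-- units of the ring of integers as elements of `K^*` -/
private noncomputable def sbI (K : Type) [Field K] [NumberField K] : (𝓞 K)ˣ →* Kˣ :=
  Units.map (algebraMap (𝓞 K) K : 𝓞 K →* K)

private theorem sbI_val (u : (𝓞 K)ˣ) : ((sbI K u : Kˣ) : K) = algebraMap (𝓞 K) K (u : 𝓞 K) := rfl

private theorem sbI_inj : Function.Injective (sbI K) := by
  intro u u' h
  have h1 : algebraMap (𝓞 K) K (u : 𝓞 K) = algebraMap (𝓞 K) K (u' : 𝓞 K) := by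
    rw [← sbI_val, ← sbI_val, h]
  exact Units.ext (FaithfulSMul.algebraMap_injective (𝓞 K) K h1)

private theorem sbI_ord (u : (𝓞 K)ˣ) (v : HeightOneSpectrum (𝓞 K)) : ordK v (sbI K u) = 0 :=
  ordK_unit u _ (sbI_val u) v

/-- the unit with given exponents -/
private noncomputable def sbU (ζ : Units.torsion K) (c : ℤ) (f : Fin (Units.rank K) → ℤ) : (𝓞 K)ˣ :=
  ((ζ ^ c : Units.torsion K) : (𝓞 K)ˣ) * ∏ i, Units.fundSystem K i ^ f i

private theorem sbU_div (ζ : Units.torsion K) (c c' : ℤ) (f f' : Fin (Units.rank K) → ℤ) :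
    sbU ζ c f / sbU ζ c' f' = sbU ζ (c - c') (f - f') := by
  unfold sbU
  rw [mul_div_mul_comm, ← Finset.prod_div_distrib, zpow_sub, Subgroup.coe_mul, Subgroup.coe_inv,
    ← div_eq_mul_inv]
  congr 1
  refine Finset.prod_congr rfl fun i _ => ?_
  rw [Pi.sub_apply, zpow_sub, div_eq_mul_inv]

private theorem sbU_even {ζ : Units.torsion K} (hζ : ∀ x : Units.torsion K, x ∈ Subgroup.zpowers ζ) {c : ℤ}
    {f : Fin (Units.rank K) → ℤ} {u : (𝓞 K)ˣ} (h : sbU ζ c f = u ^ 2) : Even c ∧ ∀ i, Even (f i) := by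
  obtain ⟨⟨ζ', k⟩, hu, -⟩ := Units.exist_unique_eq_mul_prod K u
  obtain ⟨m, hm⟩ := hζ ζ'
  have hm' : ζ ^ m = ζ' := hm
  have h1 : u ^ 2 = ((ζ' ^ 2 : Units.torsion K) : (𝓞 K)ˣ) * ∏ i, Units.fundSystem K i ^ (2 * k i) := by
    have hu' : u = (ζ' : (𝓞 K)ˣ) * ∏ i, Units.fundSystem K i ^ k i := hu
    rw [hu', mul_pow, ← Finset.prod_pow, Subgroup.coe_pow]
    congr 1
    refine Finset.prod_congr rfl fun i _ => ?_
    rw [mul_comm 2, zpow_mul]
    rfl
  have h2 : (⟨ζ ^ c, f⟩ : Units.torsion K × (Fin (Units.rank K) → ℤ)) = ⟨ζ' ^ 2, fun i => 2 * k i⟩ :=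
    (Units.exist_unique_eq_mul_prod K (u ^ 2)).unique h.symm h1
  rw [Prod.mk.injEq] at h2
  constructor
  · have h3 := h2.1
    rw [← hm', ← zpow_natCast, ← zpow_mul] at h3
    have h4 : ζ ^ (c - m * (2 : ℕ)) = 1 := by
      rw [zpow_sub, h3, mul_inv_cancel]
    rw [← orderOf_dvd_iff_zpow_eq_one] at h4
    have h5 : orderOf ζ = Units.torsionOrder K := orderOf_eq_card_of_forall_mem_zpowers hζ
    have h6 : Even (Units.torsionOrder K) := Units.even_torsionOrder K
    rw [h5] at h4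
    obtain ⟨t, ht⟩ := h4
    obtain ⟨q, hq⟩ := h6
    refine ⟨m + q * t, ?_⟩
    have h7 : c = m * 2 + (Units.torsionOrder K : ℤ) * t := by
      push_cast at ht
      linarith
    rw [h7, hq]
    push_cast
    ring
  · intro i
    have h3 := congrFun h2.2 i
    rw [h3]
    exact even_two_mul _

theorem SU_many (S : Finset (HeightOneSpectrum (𝓞 K))) :
    ∃ f : (Fin (NS S) → Bool) → Kˣ, (∀ e, f e ∈ SU S) ∧
      ∀ e e', IsSquare (f e / f e') → e = e' := by
  classical
  obtain ⟨s, a, hs, ha, hbas, hind⟩ := SU_basis S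
  obtain ⟨ζ, hζ⟩ := IsCyclic.exists_generator (α := Units.torsion K)
  -- the elements with given exponents
  obtain ⟨E, hE⟩ : ∃ E : ℤ → (Fin (Units.rank K) → ℤ) → (Fin s → ℤ) → Kˣ,
      ∀ c f g, E c f g = sbI K (sbU ζ c f) * ∏ j, a j ^ g j := ⟨_, fun _ _ _ => rfl⟩
  have hES : ∀ c f g, E c f g ∈ SU S := by
    intro c f g
    rw [hE]
    refine (SU S).mul_mem (fun v _ => sbI_ord _ v) ((SU S).prod_mem fun j _ => (SU S).zpow_mem (ha j) _)
  have hEdiv : ∀ c c' f f' g g', E c f g / E c' f' g' = E (c - c') (f - f') (g - g') := by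
    intro c c' f f' g g'
    rw [hE, hE, hE, mul_div_mul_comm, ← map_div, sbU_div, ← Finset.prod_div_distrib]
    congr 1
    refine Finset.prod_congr rfl fun j _ => ?_
    rw [Pi.sub_apply, zpow_sub, div_eq_mul_inv]
  have hEsq : ∀ c f g, IsSquare (E c f g) → Even c ∧ (∀ i, Even (f i)) ∧ ∀ j, Even (g j) := by
    rintro c f g ⟨y, hy⟩
    have hyS : y ∈ SU S := by
      intro v hv
      have h1 := hES c f g v hv
      rw [hy, ordK_mul] at h1
      omega
    obtain ⟨k, hk⟩ := hbas y hyS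
    obtain ⟨w, hw⟩ : ∃ w, w = y / ∏ j, a j ^ k j := ⟨_, rfl⟩
    rw [← hw] at hk
    have hyw : y = w * ∏ j, a j ^ k j := by rw [hw, div_mul_cancel]
    have hprod : ∏ j, a j ^ (g - fun j => k j * 2) j = w ^ 2 / sbI K (sbU ζ c f) := by
      have h1 : ∏ j, a j ^ (g - fun j => k j * 2) j = (∏ j, a j ^ g j) / (∏ j, a j ^ k j) ^ 2 := by
        rw [← Finset.prod_pow, ← Finset.prod_div_distrib]
        refine Finset.prod_congr rfl fun j _ => ?_
        rw [Pi.sub_apply, zpow_sub, div_eq_mul_inv, zpow_mul, zpow_ofNat]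
      rw [h1, div_eq_div_iff_mul_eq_mul, mul_comm (∏ j, a j ^ g j), ← hE, hy, hyw]
      simp only [pow_two]
      exact mul_mul_mul_comm _ _ _ _
    have hg : (g - fun j => k j * 2) = 0 := by
      apply hind
      intro v
      rw [hprod, ordK_div, ordK_pow, hk v, sbI_ord]
      simp
    obtain ⟨u', hu'⟩ := unit_coe w hk
    have hwu : w = sbI K u' := Units.ext (by rw [sbI_val]; exact hu')
    have h2 : sbU ζ c f = u' ^ 2 := by
      apply sbI_inj
      rw [map_pow, ← hwu]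
      rw [hg] at hprod
      simp only [Pi.zero_apply, zpow_zero, Finset.prod_const_one] at hprod
      exact (div_eq_one.1 hprod.symm).symm
    obtain ⟨h3, h4⟩ := sbU_even hζ h2
    refine ⟨h3, h4, fun j => ?_⟩
    have h5 := congrFun hg j
    simp only [Pi.sub_apply, Pi.zero_apply] at h5
    exact ⟨k j, by linarith⟩
  -- the index type
  have hcard : Fintype.card (Fin S.card ⊕ (Unit ⊕ Fin (Units.rank K))) = NS S := by
    have h1 : Fintype.card (InfinitePlace K) = InfinitePlace.nrRealPlaces K +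
        InfinitePlace.nrComplexPlaces K := InfinitePlace.card_eq_nrRealPlaces_add_nrComplexPlaces K
    have h2 : 0 < Fintype.card (InfinitePlace K) := Fintype.card_pos
    have h3 : Units.rank K = Fintype.card (InfinitePlace K) - 1 := rfl
    simp only [Fintype.card_sum, Fintype.card_fin, Fintype.card_unit, NS]
    omega
  obtain ⟨q⟩ : Nonempty ((Fin S.card ⊕ (Unit ⊕ Fin (Units.rank K))) ≃ Fin (NS S)) :=
    ⟨Fintype.equivFinOfCardEq hcard⟩
  obtain ⟨b, hb⟩ : ∃ b : (Fin (NS S) → Bool) → (Fin S.card ⊕ (Unit ⊕ Fin (Units.rank K))) → ℤ,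
      ∀ e t, b e t = if e (q t) then 1 else 0 := ⟨fun e t => if e (q t) then 1 else 0, fun _ _ => rfl⟩
  have hbe : ∀ e e' t, Even (b e t - b e' t) → e (q t) = e' (q t) := by
    intro e e' t h
    rw [hb, hb] at h
    rcases he : e (q t) <;> rcases he' : e' (q t) <;> simp [he, he'] at h ⊢
  refine ⟨fun e => E (b e (Sum.inr (Sum.inl ()))) (fun i => b e (Sum.inr (Sum.inr i)))
    (fun j => if h : j.1 < S.card then b e (Sum.inl ⟨j.1, h⟩) else 0), fun e => hES _ _ _, ?_⟩
  intro e e' h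
  rw [hEdiv] at h
  obtain ⟨h1, h2, h3⟩ := hEsq _ _ _ h
  funext x
  obtain ⟨t, rfl⟩ := q.surjective x
  rcases t with t | t | t
  · have h4 := h3 (Fin.castLE hs t)
    simp only [Pi.sub_apply, Fin.val_castLE, t.2, dif_pos] at h4
    exact hbe e e' _ h4
  · exact hbe e e' _ h1
  · exact hbe e e' _ (h2 t)

end Pool.Agent.QD
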