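import Pool.Agent.QD.N3.Basic

/-!
# QD-N3-SUnitA: orders of `S`-units

PLAN.
`unit_coe`: `IsDedekindDomain.HeightOneSpectrum.mem_integers_of_valuation_le_one` for `x` and
`x⁻¹` (`val_eq_exp`) gives `a, b ∈ 𝓞 K` with `x = a`, `x⁻¹ = b`, `a b = 1`.
`exists_ord_pow`: `v.asIdeal ^ h` is principal, `h ≥ 1` the class number (the class group is
finite: `ClassGroup.mk0`, `pow_card_eq_one`, `ClassGroup.mk0_eq_one_iff`), `= span {α}`, and
`ord_v α = h` (`le_ordK_iff_of_int`: `α ∈ v^h`, `α ∉ v^(h+1)` as `v^(h+1) ≠ v^h`,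
`Ideal.pow_right_injective`-like), `ord_w α = 0` for `w ≠ v` (`α ∈ w` would give `v^h ⊆ w`, so
`v ⊆ w`, `v = w` by maximality).
`SU_basis`: let `B ⊆ (S → ℤ)` be the image of `SU S` under `x ↦ (ordK v x)_{v ∈ S}`, a
`Submodule ℤ (S → ℤ)` (or `AddSubgroup`, `AddSubgroup.toIntSubmodule`).  With `h = ∏` or the common
`h` of `exists_ord_pow` it contains `h • Pi.single v 1` for all `v ∈ S`, so multiplication by `h`
is an injective linear map of `ℤ^S` into `B`, and `finrank ℤ B ≥ #S`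
(`LinearMap.finrank_le_finrank_of_injective`; `B` is finitely generated as a submodule of a
noetherian module).  `B` is free (submodule of a free module over a PID), basis `b_1, …, b_s`,
`s = finrank ℤ B` (`Module.finBasis ℤ B`).  Choose `a_j ∈ SU S` with image `b_j`.
Every `y ∈ SU S` has image `∑ c_j b_j`, so `y / ∏ a_j^(c_j)` has order `0` in `S` and outside `S`
(both are in `SU S`).  The second property is linear independence of the basis.
-/

namespace Pool.Agent.QD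

open NumberField IsDedekindDomain Pool.Agent.HWR WithZero

variable {K : Type} [Field K] [NumberField K]

theorem unit_coe (x : Kˣ) (h : ∀ v : HeightOneSpectrum (𝓞 K), ordK v x = 0) :
    ∃ u : (𝓞 K)ˣ, (x : K) = algebraMap (𝓞 K) K (u : 𝓞 K) := by
  have h1 : ∀ v : HeightOneSpectrum (𝓞 K), v.valuation K (x : K) ≤ 1 := by
    intro v
    rw [val_eq_exp, h v]
    simp
  have h2 : ∀ v : HeightOneSpectrum (𝓞 K), v.valuation K ((x⁻¹ : Kˣ) : K) ≤ 1 := by
    intro v
    rw [val_eq_exp, ordK_inv, h v]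
    simp
  obtain ⟨a, ha⟩ := HeightOneSpectrum.mem_integers_of_valuation_le_one K (x : K) h1
  obtain ⟨b, hb⟩ := HeightOneSpectrum.mem_integers_of_valuation_le_one K ((x⁻¹ : Kˣ) : K) h2
  have hab : a * b = 1 := by
    apply FaithfulSMul.algebraMap_injective (𝓞 K) K
    rw [map_mul, ha, hb, map_one]
    simp
  exact ⟨⟨a, b, hab, by rw [mul_comm]; exact hab⟩, ha.symm⟩

theorem ordK_unit (u : (𝓞 K)ˣ) (x : Kˣ) (hx : (x : K) = algebraMap (𝓞 K) K (u : 𝓞 K))
    (v : HeightOneSpectrum (𝓞 K)) : ordK v x = 0 := by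
  have h1 := ordK_nonneg_of_int v x _ hx
  have hx' : ((x⁻¹ : Kˣ) : K) = algebraMap (𝓞 K) K ((u⁻¹ : (𝓞 K)ˣ) : 𝓞 K) := by
    rw [Units.val_inv_eq_inv_val, hx]
    apply inv_eq_of_mul_eq_one_left
    rw [← map_mul]
    simp
  have h2 := ordK_nonneg_of_int v x⁻¹ _ hx'
  rw [ordK_inv] at h2
  omega

theorem exists_ord_pow (K : Type) [Field K] [NumberField K] : ∃ h : ℕ, 0 < h ∧
    ∀ v : HeightOneSpectrum (𝓞 K), ∃ x : Kˣ, ordK v x = h ∧ ∀ w, w ≠ v → ordK w x = 0 := by
  refine ⟨Fintype.card (ClassGroup (𝓞 K)), Fintype.card_pos, fun v => ?_⟩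
  set h := Fintype.card (ClassGroup (𝓞 K)) with hh
  have hv0 : v.asIdeal ∈ nonZeroDivisors (Ideal (𝓞 K)) := mem_nonZeroDivisors_of_ne_zero v.ne_bot
  have h1 : ClassGroup.mk0 ⟨v.asIdeal, hv0⟩ ^ h = 1 := pow_card_eq_one
  rw [← map_pow] at h1
  have h2 : (⟨v.asIdeal, hv0⟩ ^ h : nonZeroDivisors (Ideal (𝓞 K))) =
      ⟨v.asIdeal ^ h, pow_mem hv0 h⟩ := rfl
  rw [h2, ClassGroup.mk0_eq_one_iff] at h1
  obtain ⟨α, hα⟩ := h1.principal
  have hα' : v.asIdeal ^ h = Ideal.span {α} := hα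
  have hαm : α ∈ v.asIdeal ^ h := by
    rw [hα']
    exact Ideal.mem_span_singleton_self α
  have hα0 : α ≠ 0 := by
    rintro rfl
    have h3 : v.asIdeal ^ h = ⊥ := by
      rw [hα']
      simp
    exact pow_ne_zero h v.ne_bot h3
  have hα0' : algebraMap (𝓞 K) K α ≠ 0 := by
    intro h3
    apply hα0
    apply FaithfulSMul.algebraMap_injective (𝓞 K) K
    rw [h3, map_zero]
  refine ⟨Units.mk0 _ hα0', ?_, ?_⟩
  · have h3 := (le_ordK_iff_of_int v (Units.mk0 _ hα0') α rfl h).2 hαm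
    have h4 : ¬ (((h + 1 : ℕ) : ℤ) ≤ ordK v (Units.mk0 _ hα0')) := by
      rw [le_ordK_iff_of_int v (Units.mk0 _ hα0') α rfl (h + 1)]
      intro h5
      have h6 : v.asIdeal ^ h ≤ v.asIdeal ^ (h + 1) := by
        rw [hα', Ideal.span_singleton_le_iff_mem]
        exact h5
      have h7 := Ideal.pow_succ_lt_pow v.ne_bot h
      exact absurd h6 (not_le_of_gt h7)
    push_cast at h4
    omega
  · intro w hw
    refine ordK_eq_zero_of_not_mem w _ α rfl ?_
    intro h3
    apply hw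
    have h4 : v.asIdeal ^ h ≤ w.asIdeal := by
      rw [hα', Ideal.span_singleton_le_iff_mem]
      exact h3
    have h5 : v.asIdeal ≤ w.asIdeal := w.isPrime.le_of_pow_le h4
    have h6 : v.asIdeal = w.asIdeal := v.isMaximal.eq_of_le w.isPrime.ne_top h5
    exact HeightOneSpectrum.ext h6.symm

/-- the lattice of the orders of the `S`-units -/
private noncomputable def ordLat (S : Finset (HeightOneSpectrum (𝓞 K))) :
    Submodule ℤ (S → ℤ) where
  carrier := {f | ∃ x ∈ SU S, ∀ v : S, ordK (v : HeightOneSpectrum (𝓞 K)) x = f v}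
  add_mem' := by
    rintro f g ⟨x, hx, hf⟩ ⟨y, hy, hg⟩
    exact ⟨x * y, mul_mem hx hy, fun v => by rw [ordK_mul, hf, hg]; rfl⟩
  zero_mem' := ⟨1, one_mem _, fun v => ordK_one _⟩
  smul_mem' := by
    rintro n f ⟨x, hx, hf⟩
    exact ⟨x ^ n, zpow_mem hx n, fun v => by rw [ordK_zpow, hf]; rfl⟩

private theorem smul_mem_ordLat (S : Finset (HeightOneSpectrum (𝓞 K))) {h : ℕ}
    (H : ∀ v : HeightOneSpectrum (𝓞 K), ∃ x : Kˣ, ordK v x = h ∧ ∀ w, w ≠ v → ordK w x = 0)
    (f : S → ℤ) : (h : ℤ) • f ∈ ordLat S := by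
  classical
  choose α hα hα' using H
  refine ⟨∏ v : S, α v ^ f v, ?_, ?_⟩
  · intro w hw
    rw [ordK_prod]
    refine Finset.sum_eq_zero fun v _ => ?_
    rw [ordK_zpow, hα' v w (fun e => hw (e ▸ v.2)), mul_zero]
  · intro w
    rw [ordK_prod, Finset.sum_eq_single w]
    · rw [ordK_zpow, hα]
      show f w * (h : ℤ) = (h : ℤ) * f w
      ring
    · intro v _ hv
      rw [ordK_zpow, hα' v w (fun e => hv (Subtype.ext e.symm)), mul_zero]
    · intro hw
      exact absurd (Finset.mem_univ w) hw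

private theorem card_le_ordLat (S : Finset (HeightOneSpectrum (𝓞 K))) :
    S.card ≤ Module.finrank ℤ (ordLat S) := by
  obtain ⟨h, hpos, H⟩ := exists_ord_pow K
  let F : (S → ℤ) →ₗ[ℤ] ordLat S :=
    LinearMap.codRestrict (ordLat S) ((h : ℤ) • LinearMap.id) (fun f => smul_mem_ordLat S H f)
  have hF : Function.Injective F := by
    intro f g hfg
    have h1 : (h : ℤ) • f = (h : ℤ) • g := congrArg Subtype.val hfg
    have h2 : (h : ℤ) ≠ 0 := by exact_mod_cast hpos.ne'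
    exact smul_right_injective _ h2 h1
  have h3 := LinearMap.finrank_le_finrank_of_injective hF
  rwa [Module.finrank_fintype_fun_eq_card, Fintype.card_coe] at h3

private theorem coe_sum_ordLat (S : Finset (HeightOneSpectrum (𝓞 K))) {ι : Type} [Fintype ι]
    (c : ι → ℤ) (b : ι → ordLat S) (v : S) :
    (∑ j, c j • b j : ordLat S).1 v = ∑ j, c j * (b j).1 v := by
  simp [Finset.sum_apply]

theorem SU_basis (S : Finset (HeightOneSpectrum (𝓞 K))) :
    ∃ (s : ℕ) (a : Fin s → Kˣ), S.card ≤ s ∧ (∀ j, a j ∈ SU S) ∧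
      (∀ y ∈ SU S, ∃ c : Fin s → ℤ, ∀ v, ordK v (y / ∏ j, a j ^ c j) = 0) ∧
      ∀ c : Fin s → ℤ, (∀ v, ordK v (∏ j, a j ^ c j) = 0) → c = 0 := by
  classical
  let b := Module.finBasis ℤ (ordLat S)
  have hb : ∀ j, ∃ x ∈ SU S, ∀ v : S, ordK (v : HeightOneSpectrum (𝓞 K)) x = (b j).1 v :=
    fun j => (b j).2
  choose a ha hab using hb
  refine ⟨Module.finrank ℤ (ordLat S), a, card_le_ordLat S, ha, ?_, ?_⟩
  · intro y hy
    let u : ordLat S := ⟨fun v => ordK (v : HeightOneSpectrum (𝓞 K)) y, y, hy, fun _ => rfl⟩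
    refine ⟨fun j => b.repr u j, fun v => ?_⟩
    rw [ordK_div, ordK_prod]
    by_cases hv : v ∈ S
    · have h1 : (∑ j, b.repr u j • b j : ordLat S).1 ⟨v, hv⟩ = u.1 ⟨v, hv⟩ := by
        rw [b.sum_repr u]
      have h2 : (∑ j, b.repr u j • b j : ordLat S).1 ⟨v, hv⟩ =
          ∑ j, b.repr u j * (b j).1 ⟨v, hv⟩ := coe_sum_ordLat S _ _ _
      rw [h2] at h1
      have h3 : ∑ j, ordK v (a j ^ (b.repr u j)) = ∑ j, b.repr u j * (b j).1 ⟨v, hv⟩ := by
        refine Finset.sum_congr rfl fun j _ => ?_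
        rw [ordK_zpow, ← hab j ⟨v, hv⟩]
      rw [h3, h1]
      show ordK v y - ordK v y = 0
      ring
    · have h3 : ∑ j, ordK v (a j ^ (b.repr u j)) = 0 := by
        refine Finset.sum_eq_zero fun j _ => ?_
        rw [ordK_zpow, ha j v hv, mul_zero]
      rw [h3, hy v hv, sub_zero]
  · intro c hc
    have h1 : ∑ j, c j • b j = 0 := by
      apply Subtype.ext
      funext v
      have h2 : (∑ j, c j • b j : ordLat S).1 v = ∑ j, c j * (b j).1 v := coe_sum_ordLat S _ _ _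
      rw [h2]
      have h3 := hc (v : HeightOneSpectrum (𝓞 K))
      rw [ordK_prod] at h3
      have h4 : ∑ j, ordK (v : HeightOneSpectrum (𝓞 K)) (a j ^ c j) = ∑ j, c j * (b j).1 v := by
        refine Finset.sum_congr rfl fun j _ => ?_
        rw [ordK_zpow, ← hab j v]
      rw [← h4, h3]
      rfl
    funext j
    exact Fintype.linearIndependent_iff.1 b.linearIndependent c h1 j

end Pool.Agent.QD
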