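import Pool.Agent.QD.N3.Inert
import Pool.Agent.QD.N3.BSAlg

/-!
# QD-N3: `S`-units which are local squares at `S` are squares
-/

namespace Pool.Agent.QD

open NumberField IsDedekindDomain Pool.Agent.HWR

variable {K : Type} [Field K] [NumberField K]

theorem isSquare_of_uK (S : Finset (HeightOneSpectrum (𝓞 K))) (x : Kˣ)
    (h : ∀ v, v ∉ S → uK v x = 1) : IsSquare x := by
  by_contra hx
  obtain ⟨v, hv, h1⟩ := exists_inert S x hx
  rw [h v hv] at h1
  omega

/-- an `S`-unit orthogonal to `K^*` is a square -/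
theorem isSquare_of_BS {T : Finset ℕ} {S : Finset (HeightOneSpectrum (𝓞 K))} (hS : Nic T S)
    (x : Kˣ) (hx : x ∈ SU S) (h : ∀ y : Kˣ, BS S x y = 1) : IsSquare x := by
  apply isSquare_of_uK S x
  intro v hv
  obtain ⟨y, hy, hy'⟩ := nic_pi hS v hv
  rw [← BS_unit_pi S v hv x y hx hy hy']
  exact h y

/-- an `S`-unit which is a local square at `S` is a square -/
theorem sunit_sq {T : Finset ℕ} {S : Finset (HeightOneSpectrum (𝓞 K))} (hS : Nic T S)
    (x : Kˣ) (hx : x ∈ HSub S) (hu : ∀ v, v ∉ S → ordK v x = 0) : IsSquare x :=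
  isSquare_of_BS hS x hu fun y => BS_recip hS x y hx

end Pool.Agent.QD
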