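import Pool.Agent.QD.N3.GSCard
import Pool.Agent.QD.N3.SUnit
import Pool.Agent.QD.N3.SUsq

/-!
# QD-N3-UPerp: `U` is its own orthogonal complement; nondegeneracy

PLAN.  (`SUsq.lean`: `isSquare_of_BS`, `sunit_sq`.)
`U_perp`, `→`: `BS S x y = BS S (x/u) y * BS S u y = 1 * 1` (`BS_mul_left`, `BS_recip`,
`BS_unit_unit`).
`←` by counting in the finite group `G = GS S` (exponent 2).  Let `N = NS S`.
`P : Subgroup Kˣ` = `{x | ∀ y ∈ SU S, BS S x y = 1}` (closed under products by `BS_mul_left`,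
inverses too), `HSub S ≤ P` (`BS_recip`).
Let `f` be the family of `SU_many`.
(a) The classes of the `f e` in `Kˣ ⧸ HSub S` are pairwise different: if `f e / f e' ∈ HSub S`, it
is a square by `sunit_sq`, so `e = e'`.  They are all in the image of `P` (`BS_unit_unit`).
(b) The `2^N` homomorphisms `χ_e : Kˣ ⧸ P →* ℚ` (or `ℤ`, `ℂ`), `x ↦ BS S x (f e)` (well defined:
`BS S x (f e) = 1` for `x ∈ P`) are pairwise different: if `χ_e = χ_e'`, then with
`u = f e / f e'` (in `SU S`) one has `BS S u x = 1` for all `x` (`BS_comm`, `BS_mul_left`, `BS_sq`),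
so `u` is a square by `isSquare_of_BS`, and `e = e'`.  Linear independence of characters
(`linearIndependent_monoidHom`) gives `2^N ≤ finrank (Kˣ ⧸ P → ℚ) = card (Kˣ ⧸ P)`
(`LinearIndependent.fintype_card_le_finrank`).
(c) `card G = card (Kˣ ⧸ P) * (relative index of HSub S in P)` (`Subgroup.relIndex_mul_index` for
`HSub S ≤ P`), so with `GS_card` the relative index is at most `4^N / 2^N = 2^N`.  By (a) the
`2^N` different classes of the `f e` are all the classes in `P` modulo `HSub S`.  So every `x ∈ P`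
is `≡ f e` modulo `HSub S` for some `e`.
`BS_nondeg`: by `U_perp` there is `u ∈ SU S` with `x / u ∈ HSub S`; then `BS S u y = 1` for all `y`
(`BS_mul_left`, `BS_recip`), so `u` is a square (`isSquare_of_BS`) and `u ∈ HSub S`
(`sq_mem_HSub`), so `x ∈ HSub S`.
-/

namespace Pool.Agent.QD

open NumberField IsDedekindDomain Pool.Agent.HWR

variable {K : Type} [Field K] [NumberField K]

/-- the orthogonal complement of the `S`-units -/
private noncomputable def upP {T : Finset ℕ} {S : Finset (HeightOneSpectrum (𝓞 K))} (hS : Nic T S) :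
    Subgroup Kˣ where
  carrier := {x | ∀ y ∈ SU S, BS S x y = 1}
  mul_mem' := by
    intro a b ha hb y hy
    rw [BS_mul_left hS, ha y hy, hb y hy, one_mul]
  one_mem' := fun y _ => BS_recip hS 1 y (HSub S).one_mem
  inv_mem' := by
    intro a ha y hy
    have h1 : BS S (a⁻¹ * a) y = BS S a⁻¹ y * BS S a y := BS_mul_left hS _ _ _
    rw [inv_mul_cancel, ha y hy, mul_one, BS_recip hS 1 y (HSub S).one_mem] at h1
    exact h1.symm

private theorem upP_mem {T : Finset ℕ} {S : Finset (HeightOneSpectrum (𝓞 K))} (hS : Nic T S) (x : Kˣ) :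
    x ∈ upP hS ↔ ∀ y ∈ SU S, BS S x y = 1 := Iff.rfl

private theorem upP_ge {T : Finset ℕ} {S : Finset (HeightOneSpectrum (𝓞 K))} (hS : Nic T S) :
    HSub S ≤ upP hS := fun x hx y _ => BS_recip hS x y hx

/-- the character of an `S`-unit -/
private noncomputable def upChi {T : Finset ℕ} {S : Finset (HeightOneSpectrum (𝓞 K))} (hS : Nic T S)
    (u : Kˣ) (hu : u ∈ SU S) : Kˣ ⧸ upP hS →* ℚ :=
  QuotientGroup.lift (upP hS)
    { toFun := fun x => ((BS S x u : ℤ) : ℚ)
      map_one' := by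
        rw [BS_recip hS 1 u (HSub S).one_mem]
        norm_num
      map_mul' := fun x y => by
        rw [BS_mul_left hS]
        push_cast
        rfl } (by
    intro x hx
    have h1 : BS S x u = 1 := hx u hu
    rw [MonoidHom.mem_ker]
    change ((BS S x u : ℤ) : ℚ) = 1
    rw [h1]
    norm_num)

private theorem upChi_mk {T : Finset ℕ} {S : Finset (HeightOneSpectrum (𝓞 K))} (hS : Nic T S)
    (u : Kˣ) (hu : u ∈ SU S) (x : Kˣ) : upChi hS u hu (QuotientGroup.mk x) = ((BS S x u : ℤ) : ℚ) := rfl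

private theorem up_rep {T : Finset ℕ} {S : Finset (HeightOneSpectrum (𝓞 K))} (hS : Nic T S)
    (x : Kˣ) (hx : x ∈ upP hS) : ∃ y ∈ SU S, x / y ∈ HSub S := by
  classical
  obtain ⟨f, hf, hfe⟩ := SU_many (K := K) S
  have hcE : Nat.card (Fin (NS S) → Bool) = 2 ^ NS S := by
    rw [Nat.card_eq_fintype_card, Fintype.card_fun, Fintype.card_bool, Fintype.card_fin]
  -- index of `HSub S`
  have hidx : (HSub S).index ≤ 4 ^ NS S := GS_card S
  have hfin : (HSub S).index ≠ 0 := by
    have : Finite (Kˣ ⧸ HSub S) := GS_finite S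
    exact Subgroup.index_ne_zero_of_finite
  have hmul := Subgroup.relIndex_mul_index (upP_ge hS)
  have hPi : (upP hS).index ≠ 0 := by
    intro h0
    rw [h0, mul_zero] at hmul
    exact hfin hmul.symm
  have hRi : (HSub S).relIndex (upP hS) ≠ 0 := by
    intro h0
    rw [h0, zero_mul] at hmul
    exact hfin hmul.symm
  have hFQ0 : (upP hS).FiniteIndex := ⟨hPi⟩
  have hFR0 : ((HSub S).subgroupOf (upP hS)).FiniteIndex := ⟨hRi⟩
  have hFQ : Finite (Kˣ ⧸ upP hS) := Subgroup.finite_quotient_of_finiteIndex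
  have hFR : Finite ((upP hS) ⧸ (HSub S).subgroupOf (upP hS)) :=
    Subgroup.finite_quotient_of_finiteIndex
  -- (b)
  have hb : 2 ^ NS S ≤ (upP hS).index := by
    have := Fintype.ofFinite (Kˣ ⧸ upP hS)
    have hinj : Function.Injective fun e : Fin (NS S) → Bool => upChi hS (f e) (hf e) := by
      intro e e' h
      have h' : upChi hS (f e) (hf e) = upChi hS (f e') (hf e') := h
      apply hfe
      apply isSquare_of_BS hS _ ((SU S).div_mem (hf e) (hf e'))
      intro y
      have h1 : BS S y (f e) = BS S y (f e') := by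
        have h2 := DFunLike.congr_fun h' (QuotientGroup.mk y)
        rw [upChi_mk, upChi_mk] at h2
        exact_mod_cast h2
      have h3 : BS S (f e / f e' * f e') y = BS S (f e / f e') y * BS S (f e') y := BS_mul_left hS _ _ _
      rw [div_mul_cancel, BS_comm hS (f e) y, h1, BS_comm hS (f e') y] at h3
      rcases BS_sq hS y (f e') with h4 | h4 <;> rw [h4] at h3 <;> linarith
    have hli := (linearIndependent_monoidHom (Kˣ ⧸ upP hS) ℚ).comp _ hinj
    have h5 := hli.fintype_card_le_finrank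
    rw [Module.finrank_fintype_fun_eq_card, ← Nat.card_eq_fintype_card, ← Nat.card_eq_fintype_card, hcE] at h5
    exact h5
  have hc : (HSub S).relIndex (upP hS) ≤ 2 ^ NS S := by
    have h6 : (HSub S).relIndex (upP hS) * 2 ^ NS S ≤ 2 ^ NS S * 2 ^ NS S := by
      calc (HSub S).relIndex (upP hS) * 2 ^ NS S ≤ (HSub S).relIndex (upP hS) * (upP hS).index :=
            Nat.mul_le_mul_left _ hb
        _ = (HSub S).index := hmul
        _ ≤ 4 ^ NS S := hidx
        _ = 2 ^ NS S * 2 ^ NS S := by rw [← mul_pow]; norm_num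
    exact Nat.le_of_mul_le_mul_right h6 (by positivity)
  have hfP : ∀ e, f e ∈ upP hS := fun e y hy => BS_unit_unit S _ _ (hf e) hy
  obtain ⟨F, hF⟩ : ∃ F : (Fin (NS S) → Bool) → (upP hS) ⧸ (HSub S).subgroupOf (upP hS),
      F = fun e => QuotientGroup.mk ⟨f e, hfP e⟩ := ⟨_, rfl⟩
  have hFinj : Function.Injective F := by
    intro e e' h
    rw [hF] at h
    have h1 := QuotientGroup.eq.1 h
    rw [Subgroup.mem_subgroupOf] at h1
    have h2 : (f e)⁻¹ * f e' ∈ HSub S := h1
    have h3 : f e' / f e ∈ HSub S := by rwa [div_eq_mul_inv, mul_comm]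
    exact (hfe e' e (sunit_sq hS _ h3 fun v hv => (SU S).div_mem (hf e') (hf e) v hv)).symm
  have hbij := hFinj.bijective_of_nat_card_le (by rw [hcE]; exact hc)
  obtain ⟨e, he⟩ := hbij.2 (QuotientGroup.mk ⟨x, hx⟩)
  rw [hF] at he
  have h1 := QuotientGroup.eq.1 he
  rw [Subgroup.mem_subgroupOf] at h1
  have h2 : (f e)⁻¹ * x ∈ HSub S := h1
  exact ⟨f e, hf e, by rwa [div_eq_mul_inv, mul_comm]⟩

/-- `U` is its own orthogonal complement -/
theorem U_perp {T : Finset ℕ} {S : Finset (HeightOneSpectrum (𝓞 K))} (hS : Nic T S)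
    (x : Kˣ) : (∃ y : Kˣ, x / y ∈ HSub S ∧ ∀ v, v ∉ S → ordK v y = 0) ↔
      ∀ y : Kˣ, (∀ v, v ∉ S → ordK v y = 0) → BS S x y = 1 := by
  constructor
  · rintro ⟨u, hu, hu'⟩ y hy
    have h1 : BS S (x / u * u) y = BS S (x / u) y * BS S u y := BS_mul_left hS _ _ _
    rw [div_mul_cancel, BS_recip hS _ y hu, BS_unit_unit S u y hu' hy, one_mul] at h1
    exact h1
  · intro h
    obtain ⟨y, hy, hxy⟩ := up_rep hS x h
    exact ⟨y, hxy, hy⟩

/-- nondegeneracy -/
theorem BS_nondeg {T : Finset ℕ} {S : Finset (HeightOneSpectrum (𝓞 K))} (hS : Nic T S)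
    (x : Kˣ) (h : ∀ y : Kˣ, BS S x y = 1) : x ∈ HSub S := by
  obtain ⟨u, hu, hxu⟩ := up_rep hS x fun y _ => h y
  have h1 : ∀ y, BS S u y = 1 := by
    intro y
    have h1 : BS S (x / u * u) y = BS S (x / u) y * BS S u y := BS_mul_left hS _ _ _
    rw [div_mul_cancel, BS_recip hS _ y hxu, h y, one_mul] at h1
    exact h1.symm
  obtain ⟨w, hw⟩ := isSquare_of_BS hS u hu h1
  have h2 : u ∈ HSub S := by
    rw [hw, ← pow_two]
    exact sq_mem_HSub S w
  have h3 := (HSub S).mul_mem hxu h2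
  rwa [div_mul_cancel] at h3

end Pool.Agent.QD
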